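import Mathlib

/-! Partial EFX states for additive pair-demand valuations: basic facts (helper84). -/

set_option linter.unusedSectionVars false

namespace Pool.Agent.H84Efx

open Finset

/-- additive pair-demand value of a bundle: the largest total weight of at most two of its items -/
noncomputable def pdv {M : Type*} (w : M → ℝ) (S : Finset M) : ℝ :=
  (S.powerset.filter (fun T => T.card ≤ 2)).sup' ⟨∅, by simp⟩ (fun T => ∑ g ∈ T, w g)

variable {ι M : Type*}

theorem pdv_le {w : M → ℝ} {S : Finset M} {t : ℝ}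
    (h : ∀ T, T ⊆ S → T.card ≤ 2 → ∑ g ∈ T, w g ≤ t) : pdv w S ≤ t := by
  refine Finset.sup'_le _ _ ?_
  intro T hT
  simp only [Finset.mem_filter, Finset.mem_powerset] at hT
  exact h T hT.1 hT.2

theorem le_pdv {w : M → ℝ} {S T : Finset M} (h1 : T ⊆ S) (h2 : T.card ≤ 2) :
    ∑ g ∈ T, w g ≤ pdv w S := by
  unfold pdv
  exact Finset.le_sup' (fun T => ∑ g ∈ T, w g)
    (Finset.mem_filter.mpr ⟨Finset.mem_powerset.mpr h1, h2⟩)

theorem pdv_mono {w : M → ℝ} {S T : Finset M} (h : S ⊆ T) : pdv w S ≤ pdv w T :=
  pdv_le (fun _ h1 h2 => le_pdv (h1.trans h) h2)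

theorem pdv_nonneg {w : M → ℝ} {S : Finset M} : 0 ≤ pdv w S := by
  have := le_pdv (w := w) (S := S) (T := ∅) (by simp) (by simp)
  simpa using this

/-- total weight -/
noncomputable def sv (w : M → ℝ) (S : Finset M) : ℝ := ∑ g ∈ S, w g

theorem sv_nonneg {w : M → ℝ} (hw : ∀ g, 0 ≤ w g) (S : Finset M) : 0 ≤ sv w S :=
  Finset.sum_nonneg (fun g _ => hw g)

theorem le_sv {w : M → ℝ} (hw : ∀ g, 0 ≤ w g) {S : Finset M} {g : M} (h : g ∈ S) :
    w g ≤ sv w S :=
  Finset.single_le_sum (f := w) (fun g _ => hw g) h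

theorem sv_single {w : M → ℝ} {g : M} : sv w {g} = w g := by simp [sv]

variable [DecidableEq M]

theorem sv_pair {w : M → ℝ} {g h : M} (hn : g ≠ h) : sv w {g, h} = w g + w h := by
  simp [sv, Finset.sum_pair hn]

theorem sv_two {w : M → ℝ} {S : Finset M} (hS : S.card = 2) {g h : M} (hg : g ∈ S) (hh : h ∈ S)
    (hn : g ≠ h) : sv w S = w g + w h := by
  have h1 : ({g, h} : Finset M) = S := by
    refine Finset.eq_of_subset_of_card_le ?_ ?_
    · intro y hy
      simp only [Finset.mem_insert, Finset.mem_singleton] at hy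
      rcases hy with rfl | rfl
      · exact hg
      · exact hh
    · rw [hS, Finset.card_pair hn]
  rw [← h1, sv_pair hn]

theorem exists_other {S : Finset M} (hS : S.card = 2) {g : M} (hg : g ∈ S) :
    ∃ h, h ∈ S ∧ g ≠ h ∧ S = {g, h} ∧ S.erase g = {h} := by
  have h1 : (S.erase g).card = 1 := by rw [Finset.card_erase_of_mem hg, hS]
  obtain ⟨h, hh⟩ := Finset.card_eq_one.mp h1
  have h2 : h ∈ S.erase g := by rw [hh]; simp
  refine ⟨h, Finset.mem_of_mem_erase h2, ?_, ?_, hh⟩
  · intro e
    rw [e] at h2
    simp at h2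
  · rw [← hh, Finset.insert_erase hg]

/-- a state: everybody holds one or two items, disjoint, and nobody strongly envies a pair -/
structure St (w : ι → M → ℝ) (X : ι → Finset M) : Prop where
  disj : ∀ i k, i ≠ k → Disjoint (X i) (X k)
  card_le : ∀ i, (X i).card ≤ 2
  ne : ∀ i, (X i).Nonempty
  efx : ∀ i k, (X k).card = 2 → ∀ g ∈ X k, w i g ≤ sv (w i) (X i)

/-- a state which is best for agent `a`, then has the largest total value, then holds most items -/
structure Best [Fintype ι] (w : ι → M → ℝ) (a : ι) (X : ι → Finset M) : Prop where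
  st : St w X
  m1 : ∀ Y, St w Y → sv (w a) (Y a) ≤ sv (w a) (X a)
  m2 : ∀ Y, St w Y → sv (w a) (X a) ≤ sv (w a) (Y a) →
    ∑ i, sv (w i) (Y i) ≤ ∑ i, sv (w i) (X i)
  m3 : ∀ Y, St w Y → sv (w a) (X a) ≤ sv (w a) (Y a) →
    ∑ i, sv (w i) (X i) ≤ ∑ i, sv (w i) (Y i) → ∑ i, (Y i).card ≤ ∑ i, (X i).card

theorem exists_best [Fintype ι] [Finite M] (w : ι → M → ℝ) (a : ι)
    (h : ∃ X : ι → Finset M, St w X) : ∃ X, Best w a X := by
  classical
  obtain ⟨X0, hX0⟩ := h
  haveI : Fintype M := Fintype.ofFinite M
  have fin : ∀ s : Set (ι → Finset M), s.Finite := fun s => Set.toFinite s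
  obtain ⟨X1, h1, g1⟩ := Set.exists_max_image {X | St w X} (fun X => sv (w a) (X a)) (fin _)
    ⟨X0, hX0⟩
  obtain ⟨X2, h2, g2⟩ := Set.exists_max_image {X | St w X ∧ sv (w a) (X1 a) ≤ sv (w a) (X a)}
    (fun X => ∑ i, sv (w i) (X i)) (fin _) ⟨X1, h1, le_refl _⟩
  obtain ⟨X3, h3, g3⟩ := Set.exists_max_image {X | St w X ∧ sv (w a) (X1 a) ≤ sv (w a) (X a) ∧
      ∑ i, sv (w i) (X2 i) ≤ ∑ i, sv (w i) (X i)}
    (fun X => ∑ i, (X i).card) (fin _) ⟨X2, h2.1, h2.2, le_refl _⟩
  refine ⟨X3, h3.1, ?_, ?_, ?_⟩
  · intro Y hY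
    exact (g1 Y hY).trans h3.2.1
  · intro Y hY hh
    exact (g2 Y ⟨hY, h3.2.1.trans hh⟩).trans h3.2.2
  · intro Y hY hh hs
    exact g3 Y ⟨hY, h3.2.1.trans hh, h3.2.2.trans hs⟩

section

variable [Fintype ι] {w : ι → M → ℝ} {a : ι} {X : ι → Finset M}

/-- nothing dominates the best state -/
theorem Best.pareto (hB : Best w a X) {Y : ι → Finset M} (hY : St w Y)
    (h : ∀ i, sv (w i) (X i) ≤ sv (w i) (Y i)) :
    (∀ i, sv (w i) (Y i) ≤ sv (w i) (X i)) ∧ ∑ i, (Y i).card ≤ ∑ i, (X i).card := by
  have h1 := hB.m2 Y hY (h a)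
  refine ⟨?_, hB.m3 Y hY (h a) (Finset.sum_le_sum fun i _ => h i)⟩
  intro i
  by_contra hc
  push Not at hc
  have : ∑ i, sv (w i) (X i) < ∑ i, sv (w i) (Y i) :=
    Finset.sum_lt_sum (fun i _ => h i) ⟨i, Finset.mem_univ i, hc⟩
  linarith

/-- an item which is not somebody's only item -/
def Lig (X : ι → Finset M) (g : M) : Prop := ∀ k, g ∈ X k → (X k).card = 2

/-- an unallocated item -/
def Fre (X : ι → Finset M) (g : M) : Prop := ∀ k, g ∉ X k

theorem Fre.lig {g : M} (h : Fre X g) : Lig X g := fun k hk => absurd hk (h k)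

theorem St.lig (h : St w X) {g : M} {k : ι} (hg : g ∈ X k) (hk : (X k).card = 2) : Lig X g := by
  intro k' hk'
  by_cases e : k' = k
  · rw [e]; exact hk
  · exact absurd hg (Finset.disjoint_left.mp (h.disj k' k e) hk')

/-- replacing one bundle -/
theorem St.upd [DecidableEq ι] (hw : ∀ i g, 0 ≤ w i g) (h : St w X) (i : ι) {B : Finset M}
    (hd : ∀ k, k ≠ i → Disjoint B (X k)) (hc : B.card ≤ 2) (hn : B.Nonempty)
    (hv : sv (w i) (X i) ≤ sv (w i) B)
    (hl : B.card = 2 → ∀ g ∈ B, ∀ k, k ≠ i → w k g ≤ sv (w k) (X k)) :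
    St w (Function.update X i B) := by
  refine ⟨?_, ?_, ?_, ?_⟩
  · intro k l hkl
    by_cases e1 : k = i
    · have e2 : l ≠ i := by rintro rfl; exact hkl e1
      rw [e1, Function.update_self, Function.update_of_ne e2]
      exact hd l e2
    · rw [Function.update_of_ne e1]
      by_cases e2 : l = i
      · rw [e2, Function.update_self]; exact (hd k e1).symm
      · rw [Function.update_of_ne e2]; exact h.disj k l hkl
  · intro k
    by_cases e1 : k = i
    · rw [e1, Function.update_self]; exact hc
    · rw [Function.update_of_ne e1]; exact h.card_le k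
  · intro k
    by_cases e1 : k = i
    · rw [e1, Function.update_self]; exact hn
    · rw [Function.update_of_ne e1]; exact h.ne k
  · intro k l hl2 g hg
    by_cases e1 : k = i
    · rw [e1, Function.update_self]
      by_cases e2 : l = i
      · rw [e2, Function.update_self] at hg
        exact le_sv (hw i) hg
      · rw [Function.update_of_ne e2] at hg hl2
        exact (h.efx i l hl2 g hg).trans hv
    · rw [Function.update_of_ne e1]
      by_cases e2 : l = i
      · rw [e2, Function.update_self] at hg hl2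
        exact hl hl2 g hg k e1
      · rw [Function.update_of_ne e2] at hg hl2
        exact h.efx k l hl2 g hg

theorem sv_update_ge [DecidableEq ι] {i : ι} {B : Finset M} (hv : sv (w i) (X i) ≤ sv (w i) B) :
    ∀ k, sv (w k) (X k) ≤ sv (w k) (Function.update X i B k) := by
  intro k
  by_cases e : k = i
  · rw [e, Function.update_self]; exact hv
  · rw [Function.update_of_ne e]

/-- a light item is worth at most one's own bundle -/
theorem Best.light (hw : ∀ i g, 0 ≤ w i g) (hB : Best w a X) {g : M} (hg : Lig X g) (i : ι) :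
    w i g ≤ sv (w i) (X i) := by
  classical
  by_cases hk : ∃ k, g ∈ X k
  · obtain ⟨k, hk⟩ := hk
    exact hB.st.efx i k (hg k hk) g hk
  · push Not at hk
    by_contra hc
    push Not at hc
    have hv : sv (w i) (X i) ≤ sv (w i) {g} := by rw [sv_single]; exact hc.le
    have hY := hB.st.upd hw i (B := {g}) (fun k _ => by simpa using hk k) (by simp) (by simp) hv
      (fun h => by simp at h)
    have := (hB.pareto hY (sv_update_ge hv)).1 i
    rw [Function.update_self, sv_single] at this
    linarith

/-- two unallocated items are worth at most one's own bundle -/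
theorem Best.pool2 (hw : ∀ i g, 0 ≤ w i g) (hB : Best w a X) {g h : M} (hg : Fre X g)
    (hh : Fre X h) (hn : g ≠ h) (i : ι) : w i g + w i h ≤ sv (w i) (X i) := by
  classical
  by_contra hc
  push Not at hc
  have hv : sv (w i) (X i) ≤ sv (w i) {g, h} := by rw [sv_pair hn]; exact hc.le
  have hY := hB.st.upd hw i (B := {g, h})
    (fun k _ => by
      rw [Finset.disjoint_left]
      intro y hy
      simp only [Finset.mem_insert, Finset.mem_singleton] at hy
      rcases hy with rfl | rfl
      · exact hg k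
      · exact hh k)
    (Finset.card_le_two) (by simp) hv
    (fun _ y hy k _ => by
      simp only [Finset.mem_insert, Finset.mem_singleton] at hy
      rcases hy with rfl | rfl
      · exact hB.light hw hg.lig k
      · exact hB.light hw hh.lig k)
  have := (hB.pareto hY (sv_update_ge hv)).1 i
  rw [Function.update_self, sv_pair hn] at this
  linarith

/-- each item of a pair is worth at least each unallocated item -/
theorem Best.own (hw : ∀ i g, 0 ≤ w i g) (hB : Best w a X) {i : ι} (hi : (X i).card = 2) {g z : M}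
    (hg : g ∈ X i) (hz : Fre X z) : w i z ≤ w i g := by
  classical
  obtain ⟨h, hh, hn, hX, hE⟩ := exists_other hi hg
  by_contra hc
  push Not at hc
  have hzh : z ≠ h := by rintro rfl; exact hz i hh
  have hv : sv (w i) (X i) ≤ sv (w i) {z, h} := by
    rw [sv_pair hzh, sv_two hi hg hh hn]; linarith
  have hY := hB.st.upd hw i (B := {z, h})
    (fun k hk => by
      rw [Finset.disjoint_left]
      intro y hy
      simp only [Finset.mem_insert, Finset.mem_singleton] at hy
      rcases hy with rfl | rfl
      · exact hz k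
      · exact Finset.disjoint_left.mp (hB.st.disj i k (Ne.symm hk)) hh)
    (Finset.card_le_two) (by simp) hv
    (fun _ y hy k _ => by
      simp only [Finset.mem_insert, Finset.mem_singleton] at hy
      rcases hy with rfl | rfl
      · exact hB.light hw hz.lig k
      · exact hB.light hw (hB.st.lig hh hi) k)
  have := (hB.pareto hY (sv_update_ge hv)).1 i
  rw [Function.update_self, sv_pair hzh, sv_two hi hg hh hn] at this
  linarith

/-- an unenvied agent -/
def Src (w : ι → M → ℝ) (X : ι → Finset M) (j : ι) : Prop :=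
  ∀ i, sv (w i) (X j) ≤ sv (w i) (X i)

/-- an unenvied agent holds two items if something is unallocated -/
theorem Best.src2 (hw : ∀ i g, 0 ≤ w i g) (hB : Best w a X) {j : ι} (hj : Src w X j) {z : M}
    (hz : Fre X z) : (X j).card = 2 := by
  classical
  by_contra hc
  have h1 : (X j).card = 1 := by
    have := hB.st.card_le j
    have := (hB.st.ne j).card_pos
    omega
  obtain ⟨x, hx⟩ := Finset.card_eq_one.mp h1
  have hxj : x ∈ X j := by rw [hx]; simp
  have hxz : x ≠ z := by rintro rfl; exact hz j hxj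
  have hv : sv (w j) (X j) ≤ sv (w j) {x, z} := by
    rw [sv_pair hxz, hx, sv_single]; linarith [hw j z]
  have hY := hB.st.upd hw j (B := {x, z})
    (fun k hk => by
      rw [Finset.disjoint_left]
      intro y hy
      simp only [Finset.mem_insert, Finset.mem_singleton] at hy
      rcases hy with rfl | rfl
      · exact Finset.disjoint_left.mp (hB.st.disj j k (Ne.symm hk)) hxj
      · exact hz k)
    (Finset.card_le_two) (by simp) hv
    (fun _ y hy k _ => by
      simp only [Finset.mem_insert, Finset.mem_singleton] at hy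
      rcases hy with rfl | rfl
      · exact (le_sv (hw k) hxj).trans (hj k)
      · exact hB.light hw hz.lig k)
  have h2 := (hB.pareto hY (sv_update_ge hv)).2
  have h3 : ∑ i, (X i).card < ∑ i, (Function.update X j {x, z} i).card := by
    refine Finset.sum_lt_sum ?_ ⟨j, Finset.mem_univ j, ?_⟩
    · intro i _
      by_cases e : i = j
      · rw [e, Function.update_self, h1, Finset.card_pair hxz]; norm_num
      · rw [Function.update_of_ne e]
    · rw [Function.update_self, h1, Finset.card_pair hxz]; norm_num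
  omega

end

end Pool.Agent.H84Efx
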