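import Pool.Agent.Helper84_Efx.Host

/-! EFX allocations with few unallocated items, any number of agents (helper84). -/

set_option linter.unusedSectionVars false

namespace Pool.Agent.H84Efx

open Finset

variable {ι M : Type*} [DecidableEq M] [Fintype ι] {w : ι → M → ℝ} {a : ι} {X : ι → Finset M}

/-- a first repetition in a sequence with values in a finite type -/
theorem first_repeat [Finite ι] (σ : ℕ → ι) :
    ∃ t1 t2, t1 < t2 ∧ σ t1 = σ t2 ∧ ∀ s, s < t2 → ∀ t, t < t2 → σ s = σ t → s = t := by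
  classical
  have hex : ∃ t2, ∃ t1, t1 < t2 ∧ σ t1 = σ t2 := by
    obtain ⟨m, n, hne, h⟩ := Finite.exists_ne_map_eq_of_infinite σ
    rcases Nat.lt_or_ge m n with h1 | h1
    · exact ⟨n, m, h1, h⟩
    · exact ⟨m, n, by omega, h.symm⟩
  obtain ⟨t1, ht1, he⟩ := Nat.find_spec hex
  refine ⟨t1, Nat.find hex, ht1, he, ?_⟩
  intro s hs t ht h
  by_contra hne
  rcases Nat.lt_or_ge s t with h1 | h1
  · exact Nat.find_min hex ht ⟨s, h1, h⟩
  · exact Nat.find_min hex hs ⟨t, by omega, h.symm⟩

/-- the items which can be given to nobody are fewer than the envied agents, and fewer than the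
unenvied ones -/
theorem Best.few (hw : ∀ i g, 0 ≤ w i g) (hB : Best w a X) (U : Finset M) (hne : U.Nonempty)
    (hU : ∀ z ∈ U, Fre X z)
    (hch : ∀ z ∈ U, ∀ j, Src w X j → ∃ c x, c ≠ j ∧ x ∈ X j ∧
      sv (w c) (X c) < w c x + w c z) [DecidablePred (Src w X)] :
    U.card < (Finset.univ.filter (fun i => ¬ Src w X i)).card := by
  classical
  by_contra hcon
  push Not at hcon
  set N := (Finset.univ.filter (fun i => ¬ Src w X i)).card with hN
  -- enumerate items of U
  obtain ⟨z0, hz0⟩ := hne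
  have hφ : ∃ φ : ℕ → M, (∀ k, φ k ∈ U) ∧
      ∀ k, k < N → ∀ l, l < N → φ k = φ l → k = l := by
    obtain ⟨e⟩ : Nonempty (Fin N ↪ U) := by
      refine Function.Embedding.nonempty_of_card_le ?_
      rw [Fintype.card_fin, Fintype.card_coe]
      exact hcon
    refine ⟨fun k => if h : k < N then (e ⟨k, h⟩ : M) else z0, ?_, ?_⟩
    · intro k
      by_cases h : k < N
      · simp only [h, dif_pos]; exact (e ⟨k, h⟩).2
      · simp only [h, dif_neg, not_false_eq_true]; exact hz0
    · intro k hk l hl h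
      simp only [hk, hl, dif_pos] at h
      have := e.injective (Subtype.ext h)
      simpa using this
  obtain ⟨φ, hφU, hφi⟩ := hφ
  have g0 : M := z0
  -- the next agent
  have hall : ∀ (i : ι) (k : ℕ), ∃ c x, (Src w X i → c ≠ i ∧ x ∈ X i ∧
      sv (w c) (X c) < w c x + w c (φ (k % N))) ∧
      (¬ Src w X i → sv (w c) (X c) < sv (w c) (X i)) := by
    intro i k
    by_cases hi : Src w X i
    · obtain ⟨c, x, h⟩ := hch (φ (k % N)) (hφU _) i hi
      exact ⟨c, x, fun _ => h, fun h' => absurd hi h'⟩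
    · obtain ⟨c, hc⟩ := exists_envier hi
      exact ⟨c, g0, fun h => absurd h hi, fun _ => hc⟩
  choose nx xx hnx using hall
  -- the dynamics
  set stp : ι × ℕ → ι × ℕ := fun p =>
    (nx p.1 p.2, if Src w X p.1 ∧ ¬ Src w X (nx p.1 p.2) then p.2 + 1 else p.2) with hstp
  set τ : ℕ → ι × ℕ := fun t => stp^[t] (a, 0) with hτ
  have hτs : ∀ t, τ (t + 1) = stp (τ t) := fun t => by
    rw [hτ]; exact Function.iterate_succ_apply' stp t (a, 0)
  set σ : ℕ → ι := fun t => (τ t).1 with hσ
  set κ : ℕ → ℕ := fun t => (τ t).2 with hκ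
  have hσs : ∀ t, σ (t + 1) = nx (σ t) (κ t) := by
    intro t; rw [hσ, hκ]; dsimp only; rw [hτs]
  have hκs : ∀ t, κ (t + 1) = if Src w X (σ t) ∧ ¬ Src w X (σ (t + 1)) then κ t + 1 else κ t := by
    intro t
    rw [hσs, hσ, hκ]; dsimp only; rw [hτs]
  obtain ⟨t1, t2, ht, hrep, hinj⟩ := first_repeat σ
  -- the counted steps
  set G : ℕ → Finset ℕ := fun t => (Finset.Ico t1 t).filter
    (fun s => Src w X (σ s) ∧ ¬ Src w X (σ (s + 1))) with hG
  have hcount : ∀ t, t1 ≤ t → κ t = κ t1 + (G t).card := by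
    intro t htt
    induction t, htt using Nat.le_induction with
    | base => rw [hG]; simp
    | succ n hn ih =>
      rw [hκs, ih]
      have e1 : Finset.Ico t1 (n + 1) = insert n (Finset.Ico t1 n) := by
        ext y; simp only [Finset.mem_Ico, Finset.mem_insert]; omega
      have e2 : G (n + 1) = if Src w X (σ n) ∧ ¬ Src w X (σ (n + 1)) then insert n (G n)
          else G n := by
        rw [hG]; dsimp only
        rw [e1, Finset.filter_insert]
      rw [e2]
      by_cases hc : Src w X (σ n) ∧ ¬ Src w X (σ (n + 1))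
      · rw [if_pos hc, if_pos hc, Finset.card_insert_of_notMem]
        · omega
        · rw [hG]; simp
      · rw [if_neg hc, if_neg hc]
  have hinj' : ∀ s, t1 ≤ s → s < t2 → ∀ t, t1 ≤ t → t < t2 → σ (s + 1) = σ (t + 1) → s = t := by
    intro s hs1 hs t ht1 htt h
    by_cases e1 : s + 1 = t2
    · by_cases e2 : t + 1 = t2
      · omega
      · rw [e1, ← hrep] at h
        have := hinj t1 ht (t + 1) (by omega) h
        omega
    · by_cases e2 : t + 1 = t2
      · rw [e2, ← hrep] at h
        have := hinj (s + 1) (by omega) t1 ht h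
        omega
      · have := hinj (s + 1) (by omega) (t + 1) (by omega) h
        omega
  have hGN : (G t2).card ≤ N := by
    rw [hN]
    refine Finset.card_le_card_of_injOn (fun s => σ (s + 1)) ?_ ?_
    · intro s hs
      rw [hG, Finset.mem_coe, Finset.mem_filter] at hs
      simp only [Finset.coe_filter, Finset.mem_univ, true_and, Set.mem_setOf_eq]
      exact hs.2.2
    · intro s hs t ht h
      rw [hG, Finset.mem_coe, Finset.mem_filter, Finset.mem_Ico] at hs ht
      exact hinj' s hs.1.1 hs.1.2 t ht.1.1 ht.1.2 h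
  have hκmono : ∀ s t, s ≤ t → κ s ≤ κ t := by
    intro s t hst
    induction t, hst using Nat.le_induction with
    | base => exact le_refl _
    | succ n hn ih =>
      rw [hκs]
      split_ifs <;> omega
  -- apply the cycle lemma
  refine hB.cycle hw (t2 - t1) (by omega) (fun t => σ (t1 + t))
    (fun t => if t = t2 - t1 then xx (σ t1) (κ t1) else xx (σ (t1 + t)) (κ (t1 + t)))
    (fun t => φ (κ (t1 + t) % N)) ?_ ?_ ?_ ?_ ?_ ?_
  · intro s hs t ht h
    have := hinj (t1 + s) (by omega) (t1 + t) (by omega) h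
    omega
  · have : t1 + (t2 - t1) = t2 := by omega
    simp only [this, add_zero]
    exact hrep.symm
  · have : ¬ (0 = t2 - t1) := by omega
    simp only [if_true, this, if_false, add_zero]
  · intro t ht h
    have e : t1 + (t + 1) = (t1 + t) + 1 := by omega
    simp only [e]
    rw [hσs]
    exact (hnx _ _).2 h
  · intro t ht h
    have e : t1 + (t + 1) = (t1 + t) + 1 := by omega
    have e' : ¬ (t = t2 - t1) := by omega
    simp only [e, e', if_false]
    rw [hσs]
    exact ⟨((hnx _ _).1 h).2.1, hU _ (hφU _), ((hnx _ _).1 h).2.2⟩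
  · have main : ∀ s, s < t2 - t1 → ∀ t, t < t2 - t1 → s < t →
        Src w X (σ (t1 + s)) → ¬ Src w X (σ (t1 + (s + 1))) → Src w X (σ (t1 + t)) →
        ¬ Src w X (σ (t1 + (t + 1))) → φ (κ (t1 + s) % N) = φ (κ (t1 + t) % N) → False := by
      intro s hs t ht hst h1 h2 h3 h4 h5
      have a1 : κ (t1 + s + 1) = κ (t1 + s) + 1 := by
        rw [hκs, if_pos ⟨h1, h2⟩]
      have a2 : κ (t1 + t + 1) = κ (t1 + t) + 1 := by
        rw [hκs, if_pos ⟨h3, h4⟩]
      have a3 : κ (t1 + s + 1) ≤ κ (t1 + t) := hκmono _ _ (by omega)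
      have a4 : κ (t1 + t + 1) ≤ κ t2 := hκmono _ _ (by omega)
      have a5 : κ t1 ≤ κ (t1 + s) := hκmono _ _ (by omega)
      have a6 := hcount t2 (by omega)
      have hN0 : 0 < N := by
        have : 0 < (G t2).card := by
          rw [Finset.card_pos]
          refine ⟨t1 + s, ?_⟩
          rw [hG, Finset.mem_filter, Finset.mem_Ico]
          exact ⟨⟨by omega, by omega⟩, h1, h2⟩
        omega
      have a7 := hφi _ (Nat.mod_lt _ hN0) _ (Nat.mod_lt _ hN0) h5
      have a8 : N ∣ κ (t1 + t) - κ (t1 + s) := by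
        exact (Nat.modEq_iff_dvd' (by omega)).mp a7
      have a9 := Nat.le_of_dvd (by omega) a8
      omega
    intro s hs t ht h1 h2 h3 h4 h5
    rcases Nat.lt_trichotomy s t with h | h | h
    · exact (main s hs t ht h h1 h2 h3 h4 h5).elim
    · exact h
    · exact (main t ht s hs h h3 h4 h1 h2 h5.symm).elim

/-- fewer than the unenvied agents -/
theorem Best.few' (hw : ∀ i g, 0 ≤ w i g) (hB : Best w a X) (U : Finset M) (hne : U.Nonempty)
    (hU : ∀ z ∈ U, Fre X z)
    (hch : ∀ z ∈ U, ∀ j, Src w X j → ∃ c x, c ≠ j ∧ x ∈ X j ∧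
      sv (w c) (X c) < w c x + w c z) [DecidablePred (Src w X)] :
    U.card < (Finset.univ.filter (fun i => Src w X i)).card := by
  classical
  by_contra hcon
  push Not at hcon
  obtain ⟨z0, hz0⟩ := hne
  have hφ : ∃ φ : ι → M, (∀ i, φ i ∈ U) ∧
      ∀ i, Src w X i → ∀ k, Src w X k → φ i = φ k → i = k := by
    obtain ⟨e⟩ : Nonempty ({i // i ∈ Finset.univ.filter (fun i => Src w X i)} ↪ U) := by
      refine Function.Embedding.nonempty_of_card_le ?_
      rw [Fintype.card_coe, Fintype.card_coe]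
      exact hcon
    refine ⟨fun i => if h : Src w X i then (e ⟨i, by simp [h]⟩ : M) else z0, ?_, ?_⟩
    · intro i
      by_cases h : Src w X i
      · simp only [h, dif_pos]; exact (e ⟨i, by simp [h]⟩).2
      · simp only [h, dif_neg, not_false_eq_true]; exact hz0
    · intro i hi k hk h
      simp only [hi, hk, dif_pos] at h
      have := e.injective (Subtype.ext h)
      simpa using this
  obtain ⟨φ, hφU, hφi⟩ := hφ
  have hall : ∀ i, ∃ c x, (Src w X i → c ≠ i ∧ x ∈ X i ∧
      sv (w c) (X c) < w c x + w c (φ i)) ∧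
      (¬ Src w X i → sv (w c) (X c) < sv (w c) (X i)) := by
    intro i
    by_cases hi : Src w X i
    · obtain ⟨c, x, h⟩ := hch (φ i) (hφU _) i hi
      exact ⟨c, x, fun _ => h, fun h' => absurd hi h'⟩
    · obtain ⟨c, hc⟩ := exists_envier hi
      exact ⟨c, z0, fun h => absurd h hi, fun _ => hc⟩
  choose f xx hf using hall
  obtain ⟨t1, t2, ht, hrep, hinj⟩ := first_repeat (fun t => f^[t] a)
  have hsucc : ∀ t, f^[t + 1] a = f (f^[t] a) := fun t => Function.iterate_succ_apply' f t a
  refine hB.cycle hw (t2 - t1) (by omega) (fun t => f^[t1 + t] a)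
    (fun t => xx (f^[t1 + t] a)) (fun t => φ (f^[t1 + t] a)) ?_ ?_ ?_ ?_ ?_ ?_
  · intro s hs t ht' h
    have := hinj (t1 + s) (by omega) (t1 + t) (by omega) h
    omega
  · have : t1 + (t2 - t1) = t2 := by omega
    simp only [this, add_zero]
    exact hrep.symm
  · have : t1 + (t2 - t1) = t2 := by omega
    simp only [this, add_zero]
    rw [← hrep]
  · intro t ht' h
    have e : t1 + (t + 1) = (t1 + t) + 1 := by omega
    simp only [e]
    rw [hsucc]
    exact (hf _).2 h
  · intro t ht' h
    have e : t1 + (t + 1) = (t1 + t) + 1 := by omega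
    simp only [e]
    rw [hsucc]
    exact ⟨((hf _).1 h).2.1, hU _ (hφU _), ((hf _).1 h).2.2⟩
  · intro s hs t ht' h1 h2 h3 h4 h5
    have h6 := hφi _ h1 _ h3 h5
    have := hinj (t1 + s) (by omega) (t1 + t) (by omega) h6
    omega

/-- EFX with at most `card ι / 2 - 1` unallocated items which nobody envies -/
theorem charity [Fintype M] [Nonempty ι] (hw : ∀ i g, 0 ≤ w i g) :
    ∃ (X : ι → Finset M) (U : Finset M),
      (∀ i j, i ≠ j → Disjoint (X i) (X j)) ∧ (∀ g, g ∈ U ↔ ∀ i, g ∉ X i) ∧
      (∀ i j, ∀ g ∈ X j, pdv (w i) ((X j).erase g) ≤ pdv (w i) (X i)) ∧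
      (∀ i, pdv (w i) U ≤ pdv (w i) (X i)) ∧ U.card ≤ Fintype.card ι / 2 - 1 := by
  classical
  obtain ⟨a⟩ := ‹Nonempty ι›
  rcases Nat.lt_or_ge (Fintype.card M) (Fintype.card ι) with hm | hm
  · obtain ⟨X, h1, h2, h3⟩ := full_of_card (w := w) hw hm.le
    refine ⟨X, ∅, h1, ?_, h3, ?_, by simp⟩
    · intro g
      constructor
      · intro h; simp at h
      · intro h
        obtain ⟨i, hi⟩ := h2 g
        exact absurd hi (h i)
    · intro i
      refine (pdv_le ?_).trans pdv_nonneg
      intro T hT _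
      rw [Finset.subset_empty.mp hT, Finset.sum_empty]
  obtain ⟨X, hB⟩ := exists_best_of_card w hw a hm
  -- hostable items
  set good : ι → M → Prop := fun j z => Src w X j ∧
    ∀ c, c ≠ j → ∀ x ∈ X j, w c x + w c z ≤ sv (w c) (X c) with hgood
  have hhost : ∀ z, ∃ j, (∃ j, good j z) → good j z := by
    intro z
    by_cases h : ∃ j, good j z
    · obtain ⟨j, hj⟩ := h
      exact ⟨j, fun _ => hj⟩
    · exact ⟨a, fun h' => absurd h' h⟩
  choose host hhost using hhost
  set H : ι → Finset M := fun j => Finset.univ.filter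
    (fun z => Fre X z ∧ (∃ j, good j z) ∧ host z = j) with hH
  set U : Finset M := Finset.univ.filter (fun z => Fre X z ∧ ¬ ∃ j, good j z) with hUd
  have memH : ∀ j z, z ∈ H j ↔ Fre X z ∧ (∃ j, good j z) ∧ host z = j := by
    intro j z; rw [hH]; simp
  have memU : ∀ z, z ∈ U ↔ Fre X z ∧ ¬ ∃ j, good j z := by
    intro z; rw [hUd]; simp
  refine ⟨fun i => X i ∪ H i, U, ?_, ?_, ?_, ?_, ?_⟩
  · intro i k hik
    rw [Finset.disjoint_left]
    intro g hg hg'
    rcases Finset.mem_union.mp hg with h1 | h1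
    · rcases Finset.mem_union.mp hg' with h2 | h2
      · exact Finset.disjoint_left.mp (hB.st.disj i k hik) h1 h2
      · rw [memH] at h2; exact h2.1 i h1
    · rw [memH] at h1
      rcases Finset.mem_union.mp hg' with h2 | h2
      · exact h1.1 k h2
      · rw [memH] at h2; exact hik (h1.2.2.symm.trans h2.2.2)
  · intro g
    rw [memU]
    constructor
    · rintro ⟨h1, h2⟩ i hi
      rcases Finset.mem_union.mp hi with h3 | h3
      · exact h1 i h3
      · rw [memH] at h3; exact h2 h3.2.1
    · intro h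
      have h1 : Fre X g := fun i hi => h i (Finset.mem_union_left _ hi)
      refine ⟨h1, fun h2 => ?_⟩
      exact h (host g) (Finset.mem_union_right _ ((memH _ _).mpr ⟨h1, h2, rfl⟩))
  · refine hB.host hw H ?_
    intro j z hz
    rw [memH] at hz
    have := hhost z hz.2.1
    rw [hz.2.2, hgood] at this
    exact ⟨hz.1, this.1, this.2⟩
  · intro i
    refine (hB.pool hw (U := U) (fun z hz => ((memU z).mp hz).1) i).trans ?_
    exact hB.st.own_le i Finset.subset_union_left
  · rcases U.eq_empty_or_nonempty with h0 | h0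
    · rw [h0]; simp
    have hch : ∀ z ∈ U, ∀ j, Src w X j → ∃ c x, c ≠ j ∧ x ∈ X j ∧
        sv (w c) (X c) < w c x + w c z := by
      intro z hz j hj
      rw [memU] at hz
      by_contra hcon
      apply hz.2
      refine ⟨j, hj, ?_⟩
      intro c hc x hx
      by_contra hlt
      push Not at hlt
      exact hcon ⟨c, x, hc, hx, hlt⟩
    have b1 := hB.few hw U h0 (fun z hz => ((memU z).mp hz).1) hch
    have b2 := hB.few' hw U h0 (fun z hz => ((memU z).mp hz).1) hch
    have b3 : (Finset.univ.filter (fun i => Src w X i)).card +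
        (Finset.univ.filter (fun i => ¬ Src w X i)).card = Fintype.card ι := by
      rw [Finset.card_filter_add_card_filter_not]
      rfl
    omega

end Pool.Agent.H84Efx
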