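import Pool.Agent.Helper84_Efx.Host

/-! Short cycles (helper84). -/

set_option linter.unusedSectionVars false

namespace Pool.Agent.H84Efx

open Finset

variable {ι M : Type*} [DecidableEq M] [Fintype ι] {w : ι → M → ℝ} {a : ι} {X : ι → Finset M}

/-- agent `c` wants the pair consisting of `x` and `z` -/
def Wants (w : ι → M → ℝ) (X : ι → Finset M) (c : ι) (x z : M) : Prop :=
  sv (w c) (X c) < w c x + w c z

/-- agent `i` envies agent `k` -/
def Env (w : ι → M → ℝ) (X : ι → Finset M) (i k : ι) : Prop :=
  sv (w i) (X i) < sv (w i) (X k)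

theorem Env.ne {i k : ι} (h : Env w X i k) : i ≠ k := by
  rintro rfl
  exact lt_irrefl _ h

theorem Env.not_src {i k : ι} (h : Env w X i k) : ¬ Src w X k := fun hs => by
  have := hs i
  unfold Env at h
  linarith

theorem Src.ne {i k : ι} (hi : Src w X i) (hk : ¬ Src w X k) : i ≠ k := by
  rintro rfl
  exact hk hi

theorem Best.cyc2n (hw : ∀ i g, 0 ≤ w i g) (hB : Best w a X) {c c' : ι} (g0 : M)
    (h1 : Env w X c c') (h2 : Env w X c' c) : False := by
  refine hB.cycle hw 2 (by norm_num) (fun t => if t = 1 then c' else c) (fun _ => g0) (fun _ => g0)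
    ?_ (by simp) rfl ?_ ?_ ?_
  · intro s hs t ht h
    interval_cases s <;> interval_cases t <;> simp_all [h1.ne, h1.ne.symm]
  · intro t ht _
    interval_cases t
    · exact h2
    · exact h1
  · intro t ht h
    interval_cases t
    · exact absurd h h2.not_src
    · exact absurd h h1.not_src
  · intro s hs t ht h _ _ _ _
    interval_cases s
    · exact absurd h h2.not_src
    · exact absurd h h1.not_src

theorem Best.cyc2 (hw : ∀ i g, 0 ≤ w i g) (hB : Best w a X) {j c : ι} {x z : M}
    (hj : Src w X j) (hx : x ∈ X j) (hz : Fre X z) (hk : Wants w X c x z)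
    (he : Env w X j c) : False := by
  have hc := he.not_src
  refine hB.cycle hw 2 (by norm_num) (fun t => if t = 1 then c else j) (fun _ => x) (fun _ => z)
    ?_ (by simp) rfl ?_ ?_ ?_
  · intro s hs t ht h
    interval_cases s <;> interval_cases t <;> simp_all [he.ne, he.ne.symm]
  · intro t ht h
    interval_cases t
    · exact absurd hj h
    · exact he
  · intro t ht h
    interval_cases t
    · exact ⟨hx, hz, hk⟩
    · exact absurd h hc
  · intro s hs t ht h h' g g' _
    interval_cases s
    · interval_cases t
      · rfl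
      · exact absurd g hc
    · exact absurd h hc

theorem Best.cyc3a (hw : ∀ i g, 0 ≤ w i g) (hB : Best w a X) {j1 j2 c2 : ι} {x1 z1 x2 z2 : M}
    (hj : Src w X j1) (hj2 : Src w X j2) (hne : j1 ≠ j2) (hx : x1 ∈ X j1) (hz : Fre X z1)
    (hk : Wants w X j2 x1 z1) (hx2 : x2 ∈ X j2) (hz2 : Fre X z2) (hk2 : Wants w X c2 x2 z2)
    (he : Env w X j1 c2) : False := by
  have hc := he.not_src
  have n1 := he.ne
  have n2 := Src.ne hj2 hc
  refine hB.cycle hw 3 (by norm_num) (fun t => if t = 1 then j2 else if t = 2 then c2 else j1)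
    (fun t => if t = 1 then x2 else x1) (fun t => if t = 1 then z2 else z1)
    ?_ (by simp) (by simp) ?_ ?_ ?_
  · intro s hs t ht h
    interval_cases s <;> interval_cases t <;> simp_all [n1.symm, n2.symm, hne.symm]
  · intro t ht h
    interval_cases t
    · exact absurd hj h
    · exact absurd hj2 h
    · exact he
  · intro t ht h
    interval_cases t
    · exact ⟨hx, hz, hk⟩
    · exact ⟨hx2, hz2, hk2⟩
    · exact absurd h hc
  · intro s hs t ht h h' g g' _
    interval_cases s
    · exact absurd hj2 h'
    · interval_cases t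
      · exact absurd hj2 g'
      · rfl
      · exact absurd g hc
    · exact absurd h hc

theorem Best.cyc3b (hw : ∀ i g, 0 ≤ w i g) (hB : Best w a X) {j c c' : ι} {x z : M}
    (hj : Src w X j) (hx : x ∈ X j) (hz : Fre X z) (hk : Wants w X c x z)
    (h1 : Env w X c' c) (h2 : Env w X j c') : False := by
  have hc := h1.not_src
  have hc' := h2.not_src
  have n1 := Src.ne hj hc
  have n2 := Src.ne hj hc'
  have n3 := h1.ne
  refine hB.cycle hw 3 (by norm_num) (fun t => if t = 1 then c else if t = 2 then c' else j)
    (fun _ => x) (fun _ => z) ?_ (by simp) rfl ?_ ?_ ?_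
  · intro s hs t ht h
    interval_cases s <;> interval_cases t <;> simp_all [n1.symm, n2.symm, n3.symm]
  · intro t ht h
    interval_cases t
    · exact absurd hj h
    · exact h1
    · exact h2
  · intro t ht h
    interval_cases t
    · exact ⟨hx, hz, hk⟩
    · exact absurd h hc
    · exact absurd h hc'
  · intro s hs t ht h h' g g' _
    interval_cases s
    · interval_cases t
      · rfl
      · exact absurd g hc
      · exact absurd g hc'
    · exact absurd h hc
    · exact absurd h hc'

theorem Best.cyc4 (hw : ∀ i g, 0 ≤ w i g) (hB : Best w a X) {j1 c1 j2 c2 : ι} {x1 z1 x2 z2 : M}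
    (hj : Src w X j1) (hj2 : Src w X j2) (hne : j1 ≠ j2) (hnc : c1 ≠ c2)
    (hx : x1 ∈ X j1) (hz : Fre X z1)
    (hk : Wants w X c1 x1 z1) (hx2 : x2 ∈ X j2) (hz2 : Fre X z2) (hk2 : Wants w X c2 x2 z2)
    (h21 : Env w X j2 c1) (he : Env w X j1 c2) (hzz : z1 ≠ z2) : False := by
  have hc1 := h21.not_src
  have hc := he.not_src
  have n1 := Src.ne hj hc1
  have n2 := Src.ne hj hc
  have n3 := Src.ne hj2 hc1
  have n4 := Src.ne hj2 hc
  refine hB.cycle hw 4 (by norm_num)
    (fun t => if t = 1 then c1 else if t = 2 then j2 else if t = 3 then c2 else j1)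
    (fun t => if t = 2 then x2 else x1) (fun t => if t = 2 then z2 else z1)
    ?_ (by simp) (by simp) ?_ ?_ ?_
  · intro s hs t ht h
    interval_cases s <;> interval_cases t <;>
      simp_all [n1.symm, n2.symm, n3.symm, n4.symm, hne.symm, hnc.symm]
  · intro t ht h
    interval_cases t
    · exact absurd hj h
    · exact h21
    · exact absurd hj2 h
    · exact he
  · intro t ht h
    interval_cases t
    · exact ⟨hx, hz, hk⟩
    · exact absurd h hc1
    · exact ⟨hx2, hz2, hk2⟩
    · exact absurd h hc
  · intro s hs t ht h h' g g' e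
    interval_cases s
    · interval_cases t
      · rfl
      · exact absurd g hc1
      · exact absurd e hzz
      · exact absurd g hc
    · exact absurd h hc1
    · interval_cases t
      · exact absurd e.symm hzz
      · exact absurd g hc1
      · rfl
      · exact absurd g hc
    · exact absurd h hc

end Pool.Agent.H84Efx
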