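import Pool.Agent.Helper84_Efx.Stuck

/-! Four agents: the case analysis (helper84). -/

set_option linter.unusedSectionVars false

namespace Pool.Agent.H84Efx

open Finset

variable {ι M : Type*} [DecidableEq M] [Fintype ι] {w : ι → M → ℝ} {a : ι} {X : ι → Finset M}

theorem fun4 {j1 c1 j2 c2 : ι} (h1 : j1 ≠ c1) (h2 : j1 ≠ j2) (h3 : j1 ≠ c2) (h4 : c1 ≠ j2)
    (h5 : c1 ≠ c2) (h6 : j2 ≠ c2) (A B C D : Finset M) :
    ∃ Y : ι → Finset M, Y j1 = A ∧ Y c1 = B ∧ Y j2 = C ∧ Y c2 = D := by
  classical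
  refine ⟨fun i => if i = j1 then A else if i = c1 then B else if i = j2 then C else D,
    ?_, ?_, ?_, ?_⟩ <;> simp [h1.symm, h2.symm, h3.symm, h4.symm, h5.symm, h6.symm]

/-- a state of four agents given by its bundles -/
theorem st4 {j1 c1 j2 c2 : ι} (h1 : j1 ≠ c1) (h2 : j1 ≠ j2) (h3 : j1 ≠ c2)
    (h4 : c1 ≠ j2) (h5 : c1 ≠ c2) (h6 : j2 ≠ c2)
    (cov : ∀ i, i = j1 ∨ i = c1 ∨ i = j2 ∨ i = c2) (A B C D : Finset M)
    (dAB : Disjoint A B) (dAC : Disjoint A C) (dAD : Disjoint A D) (dBC : Disjoint B C)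
    (dBD : Disjoint B D) (dCD : Disjoint C D)
    (cA : A.card ≤ 2) (cB : B.card ≤ 2) (cC : C.card ≤ 2) (cD : D.card ≤ 2)
    (nA : A.Nonempty) (nB : B.Nonempty) (nC : C.Nonempty) (nD : D.Nonempty)
    (hv : ∀ V, (V = A ∨ V = B ∨ V = C ∨ V = D) → V.card = 2 → ∀ g ∈ V,
      w j1 g ≤ sv (w j1) A ∧ w c1 g ≤ sv (w c1) B ∧ w j2 g ≤ sv (w j2) C ∧
      w c2 g ≤ sv (w c2) D) :
    ∃ Y, St w Y ∧ Y j1 = A ∧ Y c1 = B ∧ Y j2 = C ∧ Y c2 = D := by
  obtain ⟨Y, e1, e2, e3, e4⟩ := fun4 h1 h2 h3 h4 h5 h6 A B C D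
  refine ⟨Y, ⟨?_, ?_, ?_, ?_⟩, e1, e2, e3, e4⟩
  · intro i k hik
    rcases cov i with rfl | rfl | rfl | rfl <;> rcases cov k with rfl | rfl | rfl | rfl <;>
      simp only [e1, e2, e3, e4] <;>
      first
        | exact absurd rfl hik
        | assumption
        | exact dAB.symm
        | exact dAC.symm
        | exact dAD.symm
        | exact dBC.symm
        | exact dBD.symm
        | exact dCD.symm
  · intro i
    rcases cov i with rfl | rfl | rfl | rfl <;> simp only [e1, e2, e3, e4] <;> assumption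
  · intro i
    rcases cov i with rfl | rfl | rfl | rfl <;> simp only [e1, e2, e3, e4] <;> assumption
  · intro i k hk g hg
    have hV : Y k = A ∨ Y k = B ∨ Y k = C ∨ Y k = D := by
      rcases cov k with rfl | rfl | rfl | rfl
      · exact Or.inl e1
      · exact Or.inr (Or.inl e2)
      · exact Or.inr (Or.inr (Or.inl e3))
      · exact Or.inr (Or.inr (Or.inr e4))
    obtain ⟨r1, r2, r3, r4⟩ := hv (Y k) hV hk g hg
    rcases cov i with rfl | rfl | rfl | rfl
    · rw [e1]; exact r1
    · rw [e2]; exact r2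
    · rw [e3]; exact r3
    · rw [e4]; exact r4

section

variable {j1 c1 j2 c2 : ι} {x1 x2 z : M}

theorem Stuck.ne' (h : Stuck w X j1 c1 j2 c2 x1 x2 z) :
    j1 ≠ c1 ∧ j1 ≠ j2 ∧ j1 ≠ c2 ∧ c1 ≠ j2 ∧ c1 ≠ c2 ∧ j2 ≠ c2 :=
  ⟨Src.ne h.s1 h.e2.not_src, h.n12, Src.ne h.s1 h.e1.not_src, (Src.ne h.s2 h.e2.not_src).symm,
    h.m12, Src.ne h.s2 h.e1.not_src⟩

theorem Stuck.c1j (hw : ∀ i g, 0 ≤ w i g) (hB : Best w a X)
    (h : Stuck w X j1 c1 j2 c2 x1 x2 z) : (X j1).card = 2 := hB.src2 hw h.s1 h.hz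

/-- the second champion prefers `x2` to everything in the first pair -/
theorem Stuck.f3 (hw : ∀ i g, 0 ≤ w i g) (hB : Best w a X)
    (h : Stuck w X j1 c1 j2 c2 x1 x2 z) {g : M} (hg : g ∈ X j1) : w c2 g < w c2 x2 := by
  have h1 := h.n1 hw hB hg h.hz
  have h2 := h.k2
  unfold Wants at h2
  linarith

/-- the second champion prefers `x2` to its own items if it holds a pair -/
theorem Stuck.f1 (hw : ∀ i g, 0 ≤ w i g) (hB : Best w a X)
    (h : Stuck w X j1 c1 j2 c2 x1 x2 z) (hc : (X c2).card = 2) {g : M} (hg : g ∈ X c2) :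
    w c2 g < w c2 x2 := by
  obtain ⟨g', hg', hn, _, _⟩ := exists_other hc hg
  have h1 := sv_two (w := w c2) hc hg hg' hn
  have h2 := hB.own hw hc hg' h.hz
  have h3 := h.k2
  unfold Wants at h3
  linarith

theorem Stuck.f2 (hw : ∀ i g, 0 ≤ w i g) (hB : Best w a X)
    (h : Stuck w X j1 c1 j2 c2 x1 x2 z) (hc : (X c2).card = 2) : w c2 z < w c2 x2 := by
  obtain ⟨g, hg⟩ := hB.st.ne c2
  exact lt_of_le_of_lt (hB.own hw hc hg h.hz) (h.f1 hw hB hc hg)

/-- disjointness helpers -/
theorem St.notMem (h : St w X) {i k : ι} (hik : i ≠ k) {g : M} (hg : g ∈ X i) : g ∉ X k :=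
  Finset.disjoint_left.mp (h.disj i k hik) hg

theorem disj_pair {S : Finset M} {g h : M} (hg : g ∉ S) (hh : h ∉ S) :
    Disjoint ({g, h} : Finset M) S := by
  rw [Finset.disjoint_left]
  intro y hy
  simp only [Finset.mem_insert, Finset.mem_singleton] at hy
  rcases hy with rfl | rfl
  · exact hg
  · exact hh

theorem disj_single {S : Finset M} {g : M} (hg : g ∉ S) : Disjoint ({g} : Finset M) S := by
  rwa [Finset.disjoint_singleton_left]

/-- the state Y1: everybody but the second champion improves -/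
theorem Stuck.y1 (hw : ∀ i g, 0 ≤ w i g) (hB : Best w a X)
    (h : Stuck w X j1 c1 j2 c2 x1 x2 z) (hc2 : (X c2).card = 2)
    (hcase : (X c1).card = 2 → ∀ g ∈ X c1, w c2 g ≤ w c2 x2) :
    a = c2 ∨ (a = j2 ∧ False) ∨ False := by
  obtain ⟨d1, d2, d3, d4, d5, d6⟩ := h.ne'
  have L := fun g hg i => hB.light (g := g) hw hg i
  have hx1z : x1 ≠ z := by rintro rfl; exact h.hz _ h.hx1
  have hx2z : x2 ≠ z := by rintro rfl; exact h.hz _ h.hx2
  have lx1 : Lig X x1 := hB.st.lig h.hx1 (h.c1j hw hB)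
  have k1 := h.k1
  have e1 := h.e1
  have e2 := h.e2
  unfold Wants at k1
  unfold Env at e1 e2
  obtain ⟨Y, hY, y1, y2, y3, y4⟩ := st4 (w := w) d1 d2 d3 d4 d5 d6 h.cover (X c2) {x1, z} (X c1)
    {x2}
    (disj_pair (hB.st.notMem d3 h.hx1) (h.hz _)).symm (hB.st.disj _ _ d5.symm)
    (disj_single (hB.st.notMem d6 h.hx2)).symm
    (disj_pair (hB.st.notMem d1 h.hx1) (h.hz _))
    (by
      refine disj_pair ?_ ?_
      · rw [Finset.mem_singleton]; rintro rfl; exact hB.st.notMem d2 h.hx1 h.hx2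
      · rw [Finset.mem_singleton]; exact hx2z.symm)
    (disj_single (hB.st.notMem d4.symm h.hx2)).symm
    (hB.st.card_le _) Finset.card_le_two (hB.st.card_le _) (by simp)
    (hB.st.ne _) (by simp) (hB.st.ne _) (by simp)
    (by
      rw [sv_pair hx1z, sv_single]
      intro V hV hc g hg
      rcases hV with rfl | rfl | rfl | rfl
      · have l := hB.st.lig hg hc2
        exact ⟨(L g l _).trans e1.le, (L g l _).trans k1.le, (L g l _).trans e2.le,
          (h.f1 hw hB hc2 hg).le⟩
      · simp only [Finset.mem_insert, Finset.mem_singleton] at hg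
        rcases hg with rfl | rfl
        · exact ⟨(L _ lx1 _).trans e1.le, (L _ lx1 _).trans k1.le, (L _ lx1 _).trans e2.le,
            (h.f3 hw hB h.hx1).le⟩
        · exact ⟨(L _ h.hz.lig _).trans e1.le, (L _ h.hz.lig _).trans k1.le,
            (L _ h.hz.lig _).trans e2.le, (h.f2 hw hB hc2).le⟩
      · have l := hB.st.lig hg hc
        exact ⟨(L g l _).trans e1.le, (L g l _).trans k1.le, (L g l _).trans e2.le,
          hcase hc g hg⟩
      · simp at hc)
  rcases h.cover a with rfl | rfl | rfl | rfl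
  · have := hB.m1 Y hY; rw [y1] at this; linarith
  · have := hB.m1 Y hY; rw [y2, sv_pair hx1z] at this; linarith
  · have := hB.m1 Y hY; rw [y3] at this; linarith
  · exact Or.inl rfl

/-- the state Y3: the second champion takes the pair of the first -/
theorem Stuck.y3 (hw : ∀ i g, 0 ≤ w i g) (hB : Best w a X)
    (h : Stuck w X j1 c1 j2 c2 x1 x2 z) (hc1 : (X c1).card = 2) (hc2 : (X c2).card = 2)
    {g1 : M} (hg1 : g1 ∈ X c1) (hlt : w c2 x2 < w c2 g1) : a ≠ j1 ∧ a ≠ c1 := by
  obtain ⟨d1, d2, d3, d4, d5, d6⟩ := h.ne'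
  have L := fun g hg i => hB.light (g := g) hw hg i
  have hx1z : x1 ≠ z := by rintro rfl; exact h.hz _ h.hx1
  have lx1 : Lig X x1 := hB.st.lig h.hx1 (h.c1j hw hB)
  have k1 := h.k1
  have e1 := h.e1
  unfold Wants at k1
  unfold Env at e1
  have hbig : w c2 x2 ≤ sv (w c2) (X c1) := hlt.le.trans (le_sv (hw c2) hg1)
  obtain ⟨Y, hY, y1, y2, y3, y4⟩ := st4 (w := w) d1 d2 d3 d4 d5 d6 h.cover (X c2) {x1, z} (X j2)
    (X c1)
    (disj_pair (hB.st.notMem d3 h.hx1) (h.hz _)).symm (hB.st.disj _ _ d6.symm)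
    (hB.st.disj _ _ d5.symm)
    (disj_pair (hB.st.notMem d2 h.hx1) (h.hz _))
    (disj_pair (hB.st.notMem d1 h.hx1) (h.hz _))
    (hB.st.disj _ _ d4.symm)
    (hB.st.card_le _) Finset.card_le_two (hB.st.card_le _) (hB.st.card_le _)
    (hB.st.ne _) (by simp) (hB.st.ne _) (hB.st.ne _)
    (by
      rw [sv_pair hx1z]
      intro V hV hc g hg
      rcases hV with rfl | rfl | rfl | rfl
      · have l := hB.st.lig hg hc2
        exact ⟨(L g l _).trans e1.le, (L g l _).trans k1.le, L g l _,
          (h.f1 hw hB hc2 hg).le.trans hbig⟩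
      · simp only [Finset.mem_insert, Finset.mem_singleton] at hg
        rcases hg with rfl | rfl
        · exact ⟨(L _ lx1 _).trans e1.le, (L _ lx1 _).trans k1.le, L _ lx1 _,
            (h.f3 hw hB h.hx1).le.trans hbig⟩
        · exact ⟨(L _ h.hz.lig _).trans e1.le, (L _ h.hz.lig _).trans k1.le,
            L _ h.hz.lig _, (h.f2 hw hB hc2).le.trans hbig⟩
      · have l := hB.st.lig hg hc
        exact ⟨(L g l _).trans e1.le, (L g l _).trans k1.le, L g l _, (h.b2 g hg).trans hbig⟩
      · have l := hB.st.lig hg hc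
        exact ⟨(L g l _).trans e1.le, (L g l _).trans k1.le, L g l _, le_sv (hw c2) hg⟩)
  constructor
  · rintro rfl
    have := hB.m1 Y hY; rw [y1] at this; linarith
  · rintro rfl
    have := hB.m1 Y hY; rw [y2, sv_pair hx1z] at this; linarith

/-- both champions hold pairs -/
theorem Stuck.pp (hw : ∀ i g, 0 ≤ w i g) (hB : Best w a X)
    (h : Stuck w X j1 c1 j2 c2 x1 x2 z) (hc1 : (X c1).card = 2) (hc2 : (X c2).card = 2) :
    a ≠ j1 ∧ a ≠ c1 := by
  by_cases hcase : ∀ g ∈ X c1, w c2 g ≤ w c2 x2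
  · rcases h.y1 hw hB hc2 (fun _ => hcase) with r | r | r
    · obtain ⟨d1, d2, d3, d4, d5, d6⟩ := h.ne'
      rw [r]
      exact ⟨d3.symm, d5.symm⟩
    · exact absurd r.2 id
    · exact absurd r id
  · push Not at hcase
    obtain ⟨g1, hg1, hlt⟩ := hcase
    exact h.y3 hw hB hc1 hc2 hg1 hlt

/-- the first champion holds one item and the second a pair -/
theorem Stuck.sp (hw : ∀ i g, 0 ≤ w i g) (hB : Best w a X)
    (h : Stuck w X j1 c1 j2 c2 x1 x2 z) (hc1 : (X c1).card = 1) (hc2 : (X c2).card = 2) :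
    False := by
  have ha : a = c2 := by
    rcases h.y1 hw hB hc2 (fun e => by omega) with r | r | r
    · exact r
    · exact absurd r.2 id
    · exact absurd r id
  obtain ⟨d1, d2, d3, d4, d5, d6⟩ := h.ne'
  have L := fun g hg i => hB.light (g := g) hw hg i
  have hx1z : x1 ≠ z := by rintro rfl; exact h.hz _ h.hx1
  have hx2z : x2 ≠ z := by rintro rfl; exact h.hz _ h.hx2
  have hx12 : x1 ≠ x2 := by rintro rfl; exact hB.st.notMem d2 h.hx1 h.hx2
  have lx2 : Lig X x2 := hB.st.lig h.hx2 (h.swap.c1j hw hB)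
  have k1 := h.k1
  have k2 := h.k2
  have e1 := h.e1
  have e2 := h.e2
  unfold Wants at k1 k2
  unfold Env at e1 e2
  have f3' : w c1 x2 < w c1 x1 := h.swap.f3 hw hB h.hx2
  by_cases hz1 : w c1 x1 < w c1 z
  · -- p2
    have : ∃ b ∈ X c2, w c1 b ≤ w c1 z := by
      by_contra hcon
      push Not at hcon
      obtain ⟨p, q, hpq, hX⟩ := Finset.card_eq_two.mp hc2
      have hp := hcon p (by rw [hX]; simp)
      have hq := hcon q (by rw [hX]; simp)
      have h4 := h.n4 hw hB
      rw [hX, sv_pair hpq] at h4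
      linarith
    obtain ⟨b, hb, hbz⟩ := this
    obtain ⟨b', hb', hbb, hXc, hE⟩ := exists_other hc2 hb
    have hS2 := sv_two (w := w c2) hc2 hb hb' hbb
    have f1b := h.f1 hw hB hc2 hb'
    have hx2b : x2 ≠ b := by rintro rfl; exact hB.st.notMem d6 h.hx2 hb
    have lb := hB.st.lig hb hc2
    obtain ⟨Y, hY, y1, y2, y3, y4⟩ := st4 (w := w) d1 d2 d3 d4 d5 d6 h.cover (X j1) {z} (X c1)
      {x2, b}
      (disj_single (h.hz _)).symm (hB.st.disj _ _ d1)
      (disj_pair (hB.st.notMem d2.symm h.hx2) (hB.st.notMem d3.symm hb)).symm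
      (disj_single (h.hz _))
      (by
        refine disj_single ?_
        simp only [Finset.mem_insert, Finset.mem_singleton, not_or]
        exact ⟨hx2z.symm, fun e => h.hz c2 (e ▸ hb)⟩)
      (disj_pair (hB.st.notMem d4.symm h.hx2) (hB.st.notMem d5.symm hb)).symm
      (hB.st.card_le _) (by simp) (hB.st.card_le _) Finset.card_le_two
      (hB.st.ne _) (by simp) (hB.st.ne _) (by simp)
      (by
        rw [sv_pair hx2b, sv_single]
        intro V hV hc g hg
        rcases hV with rfl | rfl | rfl | rfl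
        · have l := hB.st.lig hg hc
          exact ⟨L g l _, (h.b1 g hg).trans hz1.le, (L g l _).trans e2.le,
            (L g l _).trans (by linarith)⟩
        · simp at hc
        · omega
        · simp only [Finset.mem_insert, Finset.mem_singleton] at hg
          rcases hg with rfl | rfl
          · exact ⟨L _ lx2 _, f3'.le.trans hz1.le, (L _ lx2 _).trans e2.le,
              (L _ lx2 _).trans (by linarith)⟩
          · exact ⟨L _ lb _, hbz, (L _ lb _).trans e2.le, (L _ lb _).trans (by linarith)⟩)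
    have := hB.m1 Y hY
    rw [ha, y4, sv_pair hx2b] at this
    linarith
  · push Not at hz1
    by_cases hp : ∀ g ∈ X c2, w c1 g ≤ w c1 x1
    · -- p1
      obtain ⟨Y, hY, y1, y2, y3, y4⟩ := st4 (w := w) d1 d2 d3 d4 d5 d6 h.cover (X c2) {x1} (X c1)
        {x2, z}
        (disj_single (hB.st.notMem d3 h.hx1)).symm (hB.st.disj _ _ d5.symm)
        (disj_pair (hB.st.notMem d6 h.hx2) (h.hz _)).symm
        (disj_single (hB.st.notMem d1 h.hx1))
        (by
          refine disj_single ?_
          simp only [Finset.mem_insert, Finset.mem_singleton, not_or]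
          exact ⟨hx12, hx1z⟩)
        (disj_pair (hB.st.notMem d4.symm h.hx2) (h.hz _)).symm
        (hB.st.card_le _) (by simp) (hB.st.card_le _) Finset.card_le_two
        (hB.st.ne _) (by simp) (hB.st.ne _) (by simp)
        (by
          rw [sv_pair hx2z, sv_single]
          intro V hV hc g hg
          rcases hV with rfl | rfl | rfl | rfl
          · have l := hB.st.lig hg hc
            exact ⟨(L g l _).trans e1.le, hp g hg, (L g l _).trans e2.le,
              (L g l _).trans k2.le⟩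
          · simp at hc
          · omega
          · simp only [Finset.mem_insert, Finset.mem_singleton] at hg
            rcases hg with rfl | rfl
            · exact ⟨(L _ lx2 _).trans e1.le, f3'.le, (L _ lx2 _).trans e2.le,
                (L _ lx2 _).trans k2.le⟩
            · exact ⟨(L _ h.hz.lig _).trans e1.le, hz1, (L _ h.hz.lig _).trans e2.le,
                (L _ h.hz.lig _).trans k2.le⟩)
      have := hB.m1 Y hY
      rw [ha, y4, sv_pair hx2z] at this
      linarith
    · -- p3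
      push Not at hp
      obtain ⟨b, hb, hlt⟩ := hp
      obtain ⟨Y, hY, y1, y2, y3, y4⟩ := st4 (w := w) d1 d2 d3 d4 d5 d6 h.cover (X j1) {b} (X c1)
        {x2, z}
        (disj_single (hB.st.notMem d3.symm hb)).symm (hB.st.disj _ _ d1)
        (disj_pair (hB.st.notMem d2.symm h.hx2) (h.hz _)).symm
        (disj_single (hB.st.notMem d5.symm hb))
        (by
          refine disj_single ?_
          simp only [Finset.mem_insert, Finset.mem_singleton, not_or]
          exact ⟨fun e => hB.st.notMem d6 h.hx2 (e ▸ hb), fun e => h.hz c2 (e ▸ hb)⟩)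
        (disj_pair (hB.st.notMem d4.symm h.hx2) (h.hz _)).symm
        (hB.st.card_le _) (by simp) (hB.st.card_le _) Finset.card_le_two
        (hB.st.ne _) (by simp) (hB.st.ne _) (by simp)
        (by
          rw [sv_pair hx2z, sv_single]
          intro V hV hc g hg
          rcases hV with rfl | rfl | rfl | rfl
          · have l := hB.st.lig hg hc
            exact ⟨L g l _, (h.b1 g hg).trans hlt.le, (L g l _).trans e2.le,
              (L g l _).trans k2.le⟩
          · simp at hc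
          · omega
          · simp only [Finset.mem_insert, Finset.mem_singleton] at hg
            rcases hg with rfl | rfl
            · exact ⟨L _ lx2 _, f3'.le.trans hlt.le, (L _ lx2 _).trans e2.le,
                (L _ lx2 _).trans k2.le⟩
            · exact ⟨L _ h.hz.lig _, hz1.trans hlt.le, (L _ h.hz.lig _).trans e2.le,
                (L _ h.hz.lig _).trans k2.le⟩)
      have := hB.m1 Y hY
      rw [ha, y4, sv_pair hx2z] at this
      linarith

end

end Pool.Agent.H84Efx
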