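import Pool.Agent.Helper84_Efx.Four

/-! Four agents: both champions hold single items; the theorem (helper84). -/

set_option linter.unusedSectionVars false

namespace Pool.Agent.H84Efx

open Finset

variable {ι M : Type*} [DecidableEq M] [Fintype ι] {w : ι → M → ℝ} {a : ι} {X : ι → Finset M}

section

variable {j1 c1 j2 c2 : ι} {x1 x2 z : M}

/-- with single champions the special agent does not envy -/
theorem Stuck.ssj (hw : ∀ i g, 0 ≤ w i g) (hB : Best w a X)
    (h : Stuck w X j1 c1 j2 c2 x1 x2 z) (hc2 : (X c2).card = 1) :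
    a ≠ j1 := by
  obtain ⟨d1, d2, d3, d4, d5, d6⟩ := h.ne'
  have hx1z : x1 ≠ z := by rintro rfl; exact h.hz _ h.hx1
  have hx2z : x2 ≠ z := by rintro rfl; exact h.hz _ h.hx2
  have hx12 : x1 ≠ x2 := by rintro rfl; exact hB.st.notMem d2 h.hx1 h.hx2
  have e1 := h.e1
  unfold Env at e1
  obtain ⟨Y, hY, y1, y2, y3, y4⟩ := st4 (w := w) d1 d2 d3 d4 d5 d6 h.cover (X c2) {x1} {x2} {z}
    (disj_single (hB.st.notMem d3 h.hx1)).symm (disj_single (hB.st.notMem d6 h.hx2)).symm
    (disj_single (h.hz _)).symm (by simpa using hx12) (by simpa using hx1z)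
    (by simpa using hx2z)
    (hB.st.card_le _) (by simp) (by simp) (by simp) (hB.st.ne _) (by simp) (by simp) (by simp)
    (by
      intro V hV hc g hg
      exfalso
      rcases hV with rfl | rfl | rfl | rfl
      · omega
      · simp at hc
      · simp at hc
      · simp at hc)
  rintro rfl
  have := hB.m1 Y hY
  rw [y1] at this
  linarith

/-- both champions hold single items and the first is special: then a complete EFX allocation
exists -/
theorem Stuck.ssc (hw : ∀ i g, 0 ≤ w i g) [Fintype M] (hB : Best w a X)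
    (h : Stuck w X j1 c1 j2 c2 x1 x2 z) (hc1 : (X c1).card = 1) (hc2 : (X c2).card = 1)
    (ha : a = c1) : Full w := by
  classical
  obtain ⟨d1, d2, d3, d4, d5, d6⟩ := h.ne'
  have L := fun g hg i => hB.light (g := g) hw hg i
  have hx1z : x1 ≠ z := by rintro rfl; exact h.hz _ h.hx1
  have hx2z : x2 ≠ z := by rintro rfl; exact h.hz _ h.hx2
  have hx12 : x1 ≠ x2 := by rintro rfl; exact hB.st.notMem d2 h.hx1 h.hx2
  have hj1 : (X j1).card = 2 := h.c1j hw hB
  have hj2 : (X j2).card = 2 := h.swap.c1j hw hB
  have lx1 : Lig X x1 := hB.st.lig h.hx1 hj1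
  have lx2 : Lig X x2 := hB.st.lig h.hx2 hj2
  have k1 := h.k1
  have k2 := h.k2
  have e1 := h.e1
  have e2 := h.e2
  unfold Wants at k1 k2
  unfold Env at e1 e2
  obtain ⟨y, hy, hxy, hXj1, hE1⟩ := exists_other hj1 h.hx1
  obtain ⟨y', hy', hxy', hXj2, hE2⟩ := exists_other hj2 h.hx2
  have f3' : ∀ g ∈ X j2, w c1 g < w c1 x1 := fun g hg => h.swap.f3 hw hB hg
  -- step 1
  have step1 : ∀ g, Lig X g → g ≠ x1 → g ≠ x2 → g ≠ z → g ∉ X c1 → g ∉ X c2 →
      w c2 x2 + w c2 g < w c2 x1 ∨ w c2 x2 + w c2 g < w c2 z := by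
    intro g lg g1 g2 g3 g4 g5
    by_contra hcon
    push Not at hcon
    obtain ⟨Y, hY, y1, y2, y3, y4⟩ := st4 (w := w) d1 d2 d3 d4 d5 d6 h.cover (X c2) {x1, z}
      (X c1) {x2, g}
      (disj_pair (hB.st.notMem d3 h.hx1) (h.hz _)).symm (hB.st.disj _ _ d5.symm)
      (disj_pair (hB.st.notMem d6 h.hx2) g5).symm
      (disj_pair (hB.st.notMem d1 h.hx1) (h.hz _))
      (by
        refine disj_pair ?_ ?_
        · simp only [Finset.mem_insert, Finset.mem_singleton, not_or]
          exact ⟨hx12, g1.symm⟩
        · simp only [Finset.mem_insert, Finset.mem_singleton, not_or]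
          exact ⟨hx2z.symm, g3.symm⟩)
      (disj_pair (hB.st.notMem d4.symm h.hx2) g4).symm
      (hB.st.card_le _) Finset.card_le_two (hB.st.card_le _) Finset.card_le_two
      (hB.st.ne _) (by simp) (hB.st.ne _) (by simp)
      (by
        rw [sv_pair hx1z, sv_pair g2.symm]
        intro V hV hc g' hg'
        rcases hV with rfl | rfl | rfl | rfl
        · omega
        · simp only [Finset.mem_insert, Finset.mem_singleton] at hg'
          rcases hg' with rfl | rfl
          · exact ⟨(L _ lx1 _).trans e1.le, (L _ lx1 _).trans k1.le, (L _ lx1 _).trans e2.le,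
              hcon.1⟩
          · exact ⟨(L _ h.hz.lig _).trans e1.le, (L _ h.hz.lig _).trans k1.le,
              (L _ h.hz.lig _).trans e2.le, hcon.2⟩
        · omega
        · simp only [Finset.mem_insert, Finset.mem_singleton] at hg'
          rcases hg' with rfl | rfl
          · exact ⟨(L _ lx2 _).trans e1.le, (L _ lx2 _).trans k1.le, (L _ lx2 _).trans e2.le,
              by linarith [hw c2 g]⟩
          · exact ⟨(L _ lg _).trans e1.le, (L _ lg _).trans k1.le, (L _ lg _).trans e2.le,
              by linarith [hw c2 x2]⟩)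
    have := hB.m1 Y hY
    rw [ha, y2, sv_pair hx1z] at this
    linarith
  -- step 2
  have step2 : ∀ g ∈ X j2, w j1 y + w j1 g ≤ sv (w j1) (X c2) := by
    intro g hg
    by_contra hcon
    push Not at hcon
    have hyg : y ≠ g := by rintro rfl; exact hB.st.notMem d2 hy hg
    have ly := hB.st.lig hy hj1
    have lg := hB.st.lig hg hj2
    obtain ⟨Y, hY, y1, y2, y3, y4⟩ := st4 (w := w) d1 d2 d3 d4 d5 d6 h.cover {y, g} {x1, z}
      (X c1) (X c2)
      (by
        refine disj_pair ?_ ?_
        · simp only [Finset.mem_insert, Finset.mem_singleton, not_or]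
          exact ⟨hxy.symm, fun e => h.hz j1 (e ▸ hy)⟩
        · simp only [Finset.mem_insert, Finset.mem_singleton, not_or]
          exact ⟨fun e => hB.st.notMem d2 h.hx1 (e ▸ hg), fun e => h.hz j2 (e ▸ hg)⟩)
      (disj_pair (hB.st.notMem d1 hy) (hB.st.notMem d4.symm hg))
      (disj_pair (hB.st.notMem d3 hy) (hB.st.notMem d6 hg))
      (disj_pair (hB.st.notMem d1 h.hx1) (h.hz _))
      (disj_pair (hB.st.notMem d3 h.hx1) (h.hz _))
      (hB.st.disj _ _ d5)
      Finset.card_le_two Finset.card_le_two (hB.st.card_le _) (hB.st.card_le _)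
      (by simp) (by simp) (hB.st.ne _) (hB.st.ne _)
      (by
        rw [sv_pair hx1z, sv_pair hyg]
        intro V hV hc g' hg'
        rcases hV with rfl | rfl | rfl | rfl
        · simp only [Finset.mem_insert, Finset.mem_singleton] at hg'
          rcases hg' with rfl | rfl
          · exact ⟨(L _ ly _).trans (by linarith), (L _ ly _).trans k1.le,
              (L _ ly _).trans e2.le, L _ ly _⟩
          · exact ⟨(L _ lg _).trans (by linarith), (L _ lg _).trans k1.le,
              (L _ lg _).trans e2.le, L _ lg _⟩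
        · simp only [Finset.mem_insert, Finset.mem_singleton] at hg'
          rcases hg' with rfl | rfl
          · exact ⟨(L _ lx1 _).trans (by linarith), (L _ lx1 _).trans k1.le,
              (L _ lx1 _).trans e2.le, L _ lx1 _⟩
          · exact ⟨(L _ h.hz.lig _).trans (by linarith), (L _ h.hz.lig _).trans k1.le,
              (L _ h.hz.lig _).trans e2.le, L _ h.hz.lig _⟩
        · omega
        · omega)
    have := hB.m1 Y hY
    rw [ha, y2, sv_pair hx1z] at this
    linarith
  -- the allocation
  set R : Finset M := Finset.univ \ (X c2 ∪ (X c1 ∪ {x1, z})) with hR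
  have memR : ∀ g, g ∈ R ↔ g ∉ X c2 ∧ g ∉ X c1 ∧ g ≠ x1 ∧ g ≠ z := by
    intro g
    rw [hR]
    simp only [Finset.mem_sdiff, Finset.mem_univ, true_and, Finset.mem_union, Finset.mem_insert,
      Finset.mem_singleton, not_or]
  -- the kinds of items in R
  have kind : ∀ g ∈ R, g = y ∨ g ∈ X j2 ∨ (Fre X g ∧ g ≠ z) := by
    intro g hg
    rw [memR] at hg
    by_cases h1 : g ∈ X j1
    · rw [hXj1] at h1
      simp only [Finset.mem_insert, Finset.mem_singleton] at h1
      rcases h1 with h1 | h1
      · exact absurd h1 hg.2.2.1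
      · exact Or.inl h1
    · by_cases h2 : g ∈ X j2
      · exact Or.inr (Or.inl h2)
      · refine Or.inr (Or.inr ⟨?_, hg.2.2.2⟩)
        intro k
        rcases h.cover k with rfl | rfl | rfl | rfl
        · exact h1
        · exact hg.2.1
        · exact h2
        · exact hg.1
  have ligR : ∀ g ∈ R, Lig X g := by
    intro g hg
    rcases kind g hg with rfl | h1 | h1
    · exact hB.st.lig hy hj1
    · exact hB.st.lig h1 hj2
    · exact h1.1.lig
  have hx2R : x2 ∈ R := by
    rw [memR]
    exact ⟨hB.st.notMem d6 h.hx2, hB.st.notMem d4.symm h.hx2, hx12.symm, hx2z⟩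
  have hy'R : y' ∈ R := by
    rw [memR]
    exact ⟨hB.st.notMem d6 hy', hB.st.notMem d4.symm hy',
      fun e => hB.st.notMem d2 h.hx1 (e ▸ hy'), fun e => h.hz j2 (e ▸ hy')⟩
  -- bound of a bundle inside R by pairs
  have bound : ∀ (i : ι) (t : ℝ), 0 ≤ t → (∀ p ∈ R, w i p ≤ t) →
      (∀ p ∈ R, ∀ q ∈ R, p ≠ q → w i p + w i q ≤ t) → pdv (w i) R ≤ t := by
    intro i t ht h1 h2
    refine pdv_le ?_
    intro T hT hc
    rcases Nat.lt_or_ge T.card 1 with h0 | h0
    · have : T = ∅ := Finset.card_eq_zero.mp (by omega)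
      rw [this, Finset.sum_empty]
      exact ht
    rcases Nat.lt_or_ge T.card 2 with h0' | h0'
    · obtain ⟨g, rfl⟩ := Finset.card_eq_one.mp (by omega : T.card = 1)
      rw [Finset.sum_singleton]
      exact h1 g (hT (by simp))
    · obtain ⟨g, g', hn, rfl⟩ := Finset.card_eq_two.mp (by omega : T.card = 2)
      rw [Finset.sum_pair hn]
      exact h2 g (hT (by simp)) g' (hT (by simp)) hn
  have Rj1 : pdv (w j1) R ≤ sv (w j1) (X c2) := by
    refine bound j1 _ (sv_nonneg (hw _) _) (fun p hp => (L p (ligR p hp) _).trans e1.le) ?_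
    have sym : ∀ p ∈ R, ∀ q ∈ R, p ≠ q → (p = y ∨ (p ∈ X j2 ∧ q ≠ y) ∨ (q ≠ y ∧ q ∉ X j2)) →
        w j1 p + w j1 q ≤ sv (w j1) (X c2) := by
      intro p hp q hq hpq hcases
      rcases hcases with h1 | h1 | h1
      · rw [h1]
        rcases kind q hq with h2 | h2 | h2
        · exact absurd (h1.trans h2.symm) hpq
        · exact step2 q h2
        · have := hB.own hw hj1 h.hx1 h2.1
          have h3 := sv_two (w := w j1) hj1 h.hx1 hy hxy
          linarith
      · rcases kind q hq with h2 | h2 | h2
        · exact absurd h2 h1.2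
        · have h3 := sv_two (w := w j1) hj2 h1.1 h2 hpq
          have := h.s2 j1
          linarith
        · have := h.swap.n2 hw hB h1.1 h2.1
          linarith
      · rcases kind q hq with h2 | h2 | h2
        · exact absurd h2 h1.1
        · exact absurd h2 h1.2
        · rcases kind p hp with h4 | h4 | h4
          · rw [h4]
            have := hB.own hw hj1 h.hx1 h2.1
            have h3 := sv_two (w := w j1) hj1 h.hx1 hy hxy
            linarith
          · have := h.swap.n2 hw hB h4 h2.1
            linarith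
          · have := hB.pool2 hw h4.1 h2.1 hpq j1
            linarith
    intro p hp q hq hpq
    by_cases a1 : p = y
    · exact sym p hp q hq hpq (Or.inl a1)
    · by_cases a2 : q = y
      · rw [add_comm]
        exact sym q hq p hp (Ne.symm hpq) (Or.inl a2)
      · by_cases a3 : p ∈ X j2
        · exact sym p hp q hq hpq (Or.inr (Or.inl ⟨a3, a2⟩))
        · by_cases a4 : q ∈ X j2
          · rw [add_comm]
            exact sym q hq p hp (Ne.symm hpq) (Or.inr (Or.inl ⟨a4, a1⟩))
          · exact sym p hp q hq hpq (Or.inr (Or.inr ⟨a2, a4⟩))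
  have Rc1 : pdv (w c1) R ≤ sv (w c1) (X c1) := by
    refine bound c1 _ (sv_nonneg (hw _) _) (fun p hp => L p (ligR p hp) _) ?_
    have half : ∀ p ∈ R, ∀ q ∈ R, p ≠ q → p = y → w c1 p + w c1 q ≤ sv (w c1) (X c1) := by
      intro p hp q hq hpq hpy
      rw [hpy]
      rcases kind q hq with h2 | h2 | h2
      · exact absurd (hpy.trans h2.symm) hpq
      · have := f3' q h2
        have h3 := sv_two (w := w c1) hj1 h.hx1 hy hxy
        have := h.s1 c1
        linarith
      · exact h.n3 hw hB hy h2.1 h2.2
    have half2 : ∀ p ∈ R, ∀ q ∈ R, p ≠ q → q ≠ y → p ∈ X j2 →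
        w c1 p + w c1 q ≤ sv (w c1) (X c1) := by
      intro p hp q hq hpq hqy hpj
      rcases kind q hq with h2 | h2 | h2
      · exact absurd h2 hqy
      · have h3 := sv_two (w := w c1) hj2 hpj h2 hpq
        have := h.s2 c1
        linarith
      · exact h.swap.n1 hw hB hpj h2.1
    intro p hp q hq hpq
    by_cases a1 : p = y
    · exact half p hp q hq hpq a1
    · by_cases a2 : q = y
      · rw [add_comm]
        exact half q hq p hp (Ne.symm hpq) a2
      · by_cases a3 : p ∈ X j2
        · exact half2 p hp q hq hpq a2 a3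
        · by_cases a4 : q ∈ X j2
          · rw [add_comm]
            exact half2 q hq p hp (Ne.symm hpq) a1 a4
          · rcases kind p hp with h2 | h2 | h2
            · exact absurd h2 a1
            · exact absurd h2 a3
            · rcases kind q hq with h3 | h3 | h3
              · exact absurd h3 a2
              · exact absurd h3 a4
              · exact hB.pool2 hw h2.1 h3.1 hpq c1
  have lex2 : ∀ p ∈ R, w c2 p ≤ w c2 x2 := by
    intro p hp
    rcases kind p hp with h2 | h2 | h2
    · rw [h2]; exact (h.f3 hw hB hy).le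
    · exact h.b2 p h2
    · have := hB.pool2 hw h2.1 h.hz h2.2 c2
      linarith
  have small : ∀ p ∈ R, p ≠ x2 → w c2 x2 + w c2 p ≤ w c2 x1 + w c2 z := by
    intro p hp hpx
    have hm := (memR p).mp hp
    rcases step1 p (ligR p hp) hm.2.2.1 hpx hm.2.2.2 hm.2.1 hm.1 with h1 | h1
    · linarith [hw c2 z]
    · linarith [hw c2 x1]
  have Rc2 : pdv (w c2) R ≤ w c2 x1 + w c2 z := by
    refine bound c2 _ (add_nonneg (hw _ _) (hw _ _)) ?_ ?_
    · intro p hp
      have h1 := small y' hy'R (Ne.symm hxy')
      have h2 := lex2 p hp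
      linarith [hw c2 y']
    · intro p hp q hq hpq
      by_cases a1 : p = x2
      · rw [a1]
        exact small q hq (by rintro rfl; exact hpq a1)
      · have h1 := small p hp a1
        have h2 := lex2 q hq
        linarith
  obtain ⟨Z, z1, z2, z3, z4⟩ := fun4 d1 d2 d3 d4 d5 d6 (X c2) (X c1) R ({x1, z} : Finset M)
  have small1 : ∀ {S : Finset M} {g : M}, g ∈ S → S.card ≤ 1 → ∀ (i : ι) (t : ℝ), 0 ≤ t →
      pdv (w i) (S.erase g) ≤ t := by
    intro S g hg hc i t ht
    have : S.erase g = ∅ := by
      rw [← Finset.card_eq_zero, Finset.card_erase_of_mem hg]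
      omega
    rw [this]
    refine pdv_le ?_
    intro T hT _
    rw [Finset.subset_empty.mp hT, Finset.sum_empty]
    exact ht
  have one : ∀ (i : ι) (g g' : M) (t : ℝ), g ≠ g' → 0 ≤ t → w i g ≤ t → w i g' ≤ t → ∀ h ∈
      ({g, g'} : Finset M), pdv (w i) (({g, g'} : Finset M).erase h) ≤ t := by
    intro i g g' t hgg ht hg hg' h hh
    refine pdv_le ?_
    intro T hT _
    have hc : T.card ≤ 1 := by
      have := Finset.card_le_card hT
      rw [Finset.card_erase_of_mem hh, Finset.card_pair hgg] at this
      exact this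
    rcases Nat.lt_or_ge T.card 1 with h0 | h0
    · have : T = ∅ := Finset.card_eq_zero.mp (by omega)
      rw [this, Finset.sum_empty]
      exact ht
    · obtain ⟨p, rfl⟩ := Finset.card_eq_one.mp (by omega : T.card = 1)
      rw [Finset.sum_singleton]
      have hp := Finset.mem_of_mem_erase (hT (Finset.mem_singleton_self p))
      simp only [Finset.mem_insert, Finset.mem_singleton] at hp
      rcases hp with rfl | rfl
      · exact hg
      · exact hg'
  have v1 : sv (w j1) (X c2) ≤ pdv (w j1) (X c2) := le_pdv (Finset.Subset.refl _) (hB.st.card_le _)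
  have v2 : sv (w c1) (X c1) ≤ pdv (w c1) (X c1) := le_pdv (Finset.Subset.refl _) (hB.st.card_le _)
  have v3 : sv (w j2) (X j2) ≤ pdv (w j2) R := by
    refine le_pdv ?_ (hB.st.card_le _)
    intro g hg
    rw [memR]
    exact ⟨hB.st.notMem d6 hg, hB.st.notMem d4.symm hg,
      fun e => hB.st.notMem d2 h.hx1 (e ▸ hg), fun e => h.hz j2 (e ▸ hg)⟩
  have v4 : w c2 x1 + w c2 z ≤ pdv (w c2) ({x1, z} : Finset M) := by
    rw [← sv_pair hx1z]
    exact le_pdv (Finset.Subset.refl _) Finset.card_le_two
  refine ⟨Z, ?_, ?_, ?_⟩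
  · intro i k hik
    have D1 : Disjoint (X c2) (X c1) := hB.st.disj _ _ d5.symm
    have D2 : Disjoint (X c2) R := by
      rw [Finset.disjoint_left]; intro g hg hg'; rw [memR] at hg'; exact hg'.1 hg
    have D3 : Disjoint (X c2) ({x1, z} : Finset M) :=
      (disj_pair (hB.st.notMem d3 h.hx1) (h.hz _)).symm
    have D4 : Disjoint (X c1) R := by
      rw [Finset.disjoint_left]; intro g hg hg'; rw [memR] at hg'; exact hg'.2.1 hg
    have D5 : Disjoint (X c1) ({x1, z} : Finset M) :=
      (disj_pair (hB.st.notMem d1 h.hx1) (h.hz _)).symm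
    have D6 : Disjoint R ({x1, z} : Finset M) := by
      rw [Finset.disjoint_left]
      intro g hg' hg
      rw [memR] at hg'
      simp only [Finset.mem_insert, Finset.mem_singleton] at hg
      rcases hg with rfl | rfl
      · exact hg'.2.2.1 rfl
      · exact hg'.2.2.2 rfl
    rcases h.cover i with rfl | rfl | rfl | rfl <;> rcases h.cover k with rfl | rfl | rfl | rfl <;>
      simp only [z1, z2, z3, z4] <;>
      first
        | exact absurd rfl hik
        | assumption
        | exact D1.symm
        | exact D2.symm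
        | exact D3.symm
        | exact D4.symm
        | exact D5.symm
        | exact D6.symm
  · intro g
    by_cases g1 : g ∈ X c2
    · exact ⟨j1, by rw [z1]; exact g1⟩
    · by_cases g2 : g ∈ X c1
      · exact ⟨c1, by rw [z2]; exact g2⟩
      · by_cases g3 : g ∈ ({x1, z} : Finset M)
        · exact ⟨c2, by rw [z4]; exact g3⟩
        · refine ⟨j2, ?_⟩
          rw [z3, memR]
          simp only [Finset.mem_insert, Finset.mem_singleton, not_or] at g3
          exact ⟨g1, g2, g3.1, g3.2⟩
  · intro i k g hg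
    rcases h.cover k with rfl | rfl | rfl | rfl
    · rw [z1] at hg ⊢
      exact small1 hg (by omega) i _ pdv_nonneg
    · rw [z2] at hg ⊢
      exact small1 hg (by omega) i _ pdv_nonneg
    · rw [z3] at hg ⊢
      refine (pdv_mono (Finset.erase_subset _ _)).trans ?_
      rcases h.cover i with rfl | rfl | rfl | rfl
      · rw [z1]; exact Rj1.trans v1
      · rw [z2]; exact Rc1.trans v2
      · rw [z3]
      · rw [z4]; exact Rc2.trans v4
    · rw [z4] at hg ⊢
      rcases h.cover i with rfl | rfl | rfl | rfl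
      · rw [z1]
        exact one _ _ _ _ hx1z pdv_nonneg (((L _ lx1 _).trans e1.le).trans v1)
          (((L _ h.hz.lig _).trans e1.le).trans v1) g hg
      · rw [z2]
        exact one _ _ _ _ hx1z pdv_nonneg ((L _ lx1 _).trans v2) ((L _ h.hz.lig _).trans v2) g hg
      · rw [z3]
        exact one _ _ _ _ hx1z pdv_nonneg ((L _ lx1 _).trans v3) ((L _ h.hz.lig _).trans v3) g hg
      · rw [z4]
        exact pdv_mono (Finset.erase_subset _ _)

end

/-- four agents with additive pair-demand valuations have a complete EFX allocation -/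
theorem full_four [Fintype M] (hw : ∀ i g, 0 ≤ w i g) (h4 : Fintype.card ι = 4) : Full w := by
  classical
  by_contra hF
  have hne : Nonempty ι := Fintype.card_pos_iff.mp (by omega)
  obtain ⟨a⟩ := hne
  rcases Nat.lt_or_ge (Fintype.card M) 4 with hm | hm
  · exact hF (full_of_card hw (by omega))
  obtain ⟨X, hB⟩ := exists_best_of_card w hw a (by omega)
  obtain ⟨j1, c1, j2, c2, x1, x2, z, h⟩ := hB.exists_stuck hw hF h4
  have q1 : (X c1).card = 1 ∨ (X c1).card = 2 := by
    have := hB.st.card_le c1
    have := (hB.st.ne c1).card_pos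
    omega
  have q2 : (X c2).card = 1 ∨ (X c2).card = 2 := by
    have := hB.st.card_le c2
    have := (hB.st.ne c2).card_pos
    omega
  rcases q1 with q1 | q1 <;> rcases q2 with q2 | q2
  · rcases h.cover a with e | e | e | e
    · exact h.ssj hw hB q2 e
    · exact hF (h.ssc hw hB q1 q2 e)
    · exact h.swap.ssj hw hB q1 e
    · exact hF (h.swap.ssc hw hB q2 q1 e)
  · exact h.sp hw hB q1 q2
  · exact h.swap.sp hw hB q2 q1
  · have r1 := h.pp hw hB q1 q2
    have r2 := h.swap.pp hw hB q2 q1
    rcases h.cover a with e | e | e | e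
    · exact r1.1 e
    · exact r1.2 e
    · exact r2.1 e
    · exact r2.2 e

end Pool.Agent.H84Efx
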