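import Pool.Agent.Helper84_Efx.Orbit

/-! Giving unallocated items to unenvied agents (helper84). -/

set_option linter.unusedSectionVars false

namespace Pool.Agent.H84Efx

open Finset

variable {ι M : Type*} [DecidableEq M] [Fintype ι] {w : ι → M → ℝ} {a : ι} {X : ι → Finset M}

theorem St.own_le (h : St w X) (i : ι) {S : Finset M} (hS : X i ⊆ S) :
    sv (w i) (X i) ≤ pdv (w i) S := le_pdv hS (h.card_le i)

/-- nobody envies the unallocated items -/
theorem Best.pool (hw : ∀ i g, 0 ≤ w i g) (hB : Best w a X) {U : Finset M}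
    (hU : ∀ z ∈ U, Fre X z) (i : ι) : pdv (w i) U ≤ sv (w i) (X i) := by
  refine pdv_le ?_
  intro T hT hc
  rcases Nat.lt_or_ge T.card 1 with h0 | h0
  · have : T = ∅ := Finset.card_eq_zero.mp (by omega)
    rw [this, Finset.sum_empty]
    exact sv_nonneg (hw i) _
  rcases Nat.lt_or_ge T.card 2 with h1 | h1
  · obtain ⟨g, rfl⟩ := Finset.card_eq_one.mp (by omega : T.card = 1)
    rw [Finset.sum_singleton]
    exact hB.light hw (hU g (hT (by simp))).lig i
  · obtain ⟨g, h, hn, rfl⟩ := Finset.card_eq_two.mp (by omega : T.card = 2)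
    rw [Finset.sum_pair hn]
    exact hB.pool2 hw (hU g (hT (by simp))) (hU h (hT (by simp))) hn i

/-- harmless items may be given to unenvied agents -/
theorem Best.host (hw : ∀ i g, 0 ≤ w i g) (hB : Best w a X) (H : ι → Finset M)
    (hH : ∀ j, ∀ z ∈ H j, Fre X z ∧ Src w X j ∧
      ∀ c, c ≠ j → ∀ x ∈ X j, w c x + w c z ≤ sv (w c) (X c)) :
    ∀ i j, ∀ g ∈ X j ∪ H j, pdv (w i) ((X j ∪ H j).erase g) ≤ pdv (w i) (X i ∪ H i) := by
  intro i j g hg
  by_cases hij : i = j
  · rw [hij]; exact pdv_mono (Finset.erase_subset _ _)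
  refine le_trans ?_ (hB.st.own_le i Finset.subset_union_left)
  refine pdv_le ?_
  intro T hT hc
  by_cases hHj : H j = ∅
  · rw [hHj, Finset.union_empty] at hT hg
    have h1 : T.card ≤ (X j).card - 1 := by
      have := Finset.card_le_card hT
      rwa [Finset.card_erase_of_mem hg] at this
    have h2 := hB.st.card_le j
    rcases Nat.lt_or_ge T.card 1 with h0 | h0
    · have : T = ∅ := Finset.card_eq_zero.mp (by omega)
      rw [this, Finset.sum_empty]
      exact sv_nonneg (hw i) _
    · obtain ⟨h, rfl⟩ := Finset.card_eq_one.mp (by omega : T.card = 1)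
      rw [Finset.sum_singleton]
      have h3 : (X j).card = 2 := by
        rw [Finset.card_singleton] at h1
        omega
      have h4 : h ∈ X j := Finset.mem_of_mem_erase (hT (by simp))
      exact hB.st.efx i j h3 h h4
  · obtain ⟨z, hz⟩ := Finset.nonempty_iff_ne_empty.mpr hHj
    have hsrc := (hH j z hz).2.1
    have hT' : T ⊆ X j ∪ H j := hT.trans (Finset.erase_subset _ _)
    have single : ∀ h ∈ X j ∪ H j, w i h ≤ sv (w i) (X i) := by
      intro h hh
      rcases Finset.mem_union.mp hh with h1 | h1
      · exact (le_sv (hw i) h1).trans (hsrc i)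
      · exact hB.light hw (hH j h h1).1.lig i
    rcases Nat.lt_or_ge T.card 1 with h0 | h0
    · have : T = ∅ := Finset.card_eq_zero.mp (by omega)
      rw [this, Finset.sum_empty]
      exact sv_nonneg (hw i) _
    rcases Nat.lt_or_ge T.card 2 with h1 | h1
    · obtain ⟨g, rfl⟩ := Finset.card_eq_one.mp (by omega : T.card = 1)
      rw [Finset.sum_singleton]
      exact single g (hT' (by simp))
    · obtain ⟨p, q, hn, rfl⟩ := Finset.card_eq_two.mp (by omega : T.card = 2)
      rw [Finset.sum_pair hn]
      have hp := hT' (show p ∈ ({p, q} : Finset M) by simp)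
      have hq := hT' (show q ∈ ({p, q} : Finset M) by simp)
      rcases Finset.mem_union.mp hp with hp1 | hp1
      · rcases Finset.mem_union.mp hq with hq1 | hq1
        · have h2 : sv (w i) {p, q} ≤ sv (w i) (X j) := by
            refine Finset.sum_le_sum_of_subset_of_nonneg ?_ (fun g _ _ => hw i g)
            intro y hy
            simp only [Finset.mem_insert, Finset.mem_singleton] at hy
            rcases hy with rfl | rfl
            · exact hp1
            · exact hq1
          rw [sv_pair hn] at h2
          exact h2.trans (hsrc i)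
        · exact (hH j q hq1).2.2 i hij p hp1
      · rcases Finset.mem_union.mp hq with hq1 | hq1
        · rw [add_comm]
          exact (hH j p hp1).2.2 i hij q hq1
        · exact hB.pool2 hw (hH j p hp1).1 (hH j q hq1).1 hn i

/-- a complete EFX allocation -/
def Full (w : ι → M → ℝ) : Prop :=
  ∃ X : ι → Finset M, (∀ i j, i ≠ j → Disjoint (X i) (X j)) ∧ (∀ g, ∃ i, g ∈ X i) ∧
    ∀ i j, ∀ g ∈ X j, pdv (w i) ((X j).erase g) ≤ pdv (w i) (X i)

/-- if one unenvied agent has no champion, all unallocated items go to it -/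
theorem Best.full_of_host (hw : ∀ i g, 0 ≤ w i g) [Fintype M] (hB : Best w a X) {j : ι}
    (hj : Src w X j)
    (h : ∀ z, Fre X z → ∀ c, c ≠ j → ∀ x ∈ X j, w c x + w c z ≤ sv (w c) (X c)) : Full w := by
  classical
  set P : Finset M := Finset.univ.filter (fun z => Fre X z) with hP
  set H : ι → Finset M := fun i => if i = j then P else ∅ with hHd
  have hHj : H j = P := by rw [hHd]; simp
  have hHn : ∀ i, i ≠ j → H i = ∅ := by intro i hi; rw [hHd]; simp [hi]
  refine ⟨fun i => X i ∪ H i, ?_, ?_, ?_⟩
  · intro i k hik
    rw [Finset.disjoint_left]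
    intro g hg hg'
    rcases Finset.mem_union.mp hg with h1 | h1
    · rcases Finset.mem_union.mp hg' with h2 | h2
      · exact Finset.disjoint_left.mp (hB.st.disj i k hik) h1 h2
      · by_cases e : k = j
        · rw [e, hHj, hP, Finset.mem_filter] at h2
          exact h2.2 i h1
        · rw [hHn k e] at h2; simp at h2
    · by_cases e : i = j
      · rw [e, hHj, hP, Finset.mem_filter] at h1
        rcases Finset.mem_union.mp hg' with h2 | h2
        · exact h1.2 k h2
        · rw [hHn k (fun e' => hik (e.trans e'.symm))] at h2; simp at h2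
      · rw [hHn i e] at h1; simp at h1
  · intro g
    by_cases hg : Fre X g
    · exact ⟨j, Finset.mem_union_right _ (by rw [hHj, hP]; simp [hg])⟩
    · unfold Fre at hg
      push Not at hg
      obtain ⟨k, hk⟩ := hg
      exact ⟨k, Finset.mem_union_left _ hk⟩
  · refine hB.host hw H ?_
    intro k z hz
    by_cases e : k = j
    · subst e
      rw [hHj, hP, Finset.mem_filter] at hz
      exact ⟨hz.2, hj, fun c hc x hx => h z hz.2 c hc x hx⟩
    · rw [hHn k e] at hz; simp at hz

/-- fewer items than agents -/
theorem full_of_card (hw : ∀ i g, 0 ≤ w i g) [Fintype M] [DecidableEq ι]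
    (h : Fintype.card M ≤ Fintype.card ι) : Full w := by
  classical
  obtain ⟨e⟩ := Function.Embedding.nonempty_of_card_le h
  refine ⟨fun i => Finset.univ.filter (fun g => e g = i), ?_, ?_, ?_⟩
  · intro i j hij
    rw [Finset.disjoint_left]
    intro g hg hg'
    simp only [Finset.mem_filter, Finset.mem_univ, true_and] at hg hg'
    exact hij (hg.symm.trans hg')
  · intro g
    exact ⟨e g, by simp⟩
  · intro i j g hg
    have : (Finset.univ.filter (fun g => e g = j)).erase g = ∅ := by
      rw [Finset.eq_empty_iff_forall_notMem]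
      intro h hh
      rw [Finset.mem_erase] at hh
      simp only [Finset.mem_filter, Finset.mem_univ, true_and] at hh hg
      exact hh.1 (e.injective (hh.2.trans hg.symm))
    rw [this]
    refine (pdv_le ?_).trans pdv_nonneg
    intro T hT _
    rw [Finset.subset_empty.mp hT, Finset.sum_empty]

/-- enough items: a best state exists -/
theorem exists_best_of_card [Fintype M] [DecidableEq ι] (w : ι → M → ℝ) (hw : ∀ i g, 0 ≤ w i g)
    (a : ι) (h : Fintype.card ι ≤ Fintype.card M) : ∃ X, Best w a X := by
  classical
  obtain ⟨e⟩ := Function.Embedding.nonempty_of_card_le h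
  refine exists_best w a ⟨fun i => {e i}, ?_, ?_, ?_, ?_⟩
  · intro i k hik
    rw [Finset.disjoint_singleton]
    exact fun h => hik (e.injective h)
  · intro i; simp
  · intro i; simp
  · intro i k hk
    simp at hk

end Pool.Agent.H84Efx
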