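import Pool.Agent.Helper84_Efx.Basic

/-! Rotations along cycles of envy and champion relations (helper84). -/

set_option linter.unusedSectionVars false

namespace Pool.Agent.H84Efx

open Finset

variable {ι M : Type*} [DecidableEq M] [Fintype ι] {w : ι → M → ℝ} {a : ι} {X : ι → Finset M}

/-- no cyclic reallocation improves the best state -/
theorem Best.no_cycle (hB : Best w a X) (L : ℕ) (hL0 : 0 < L) (i : ℕ → ι) (T : ℕ → Finset M)
    (hinj : ∀ s, s < L → ∀ t, t < L → i s = i t → s = t) (hL : i L = i 0)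
    (hc : ∀ t, t < L → (T t).card ≤ 2) (hn : ∀ t, t < L → (T t).Nonempty)
    (hv : ∀ t, t < L → sv (w (i (t + 1))) (X (i (t + 1))) ≤ sv (w (i (t + 1))) (T t))
    (hs : ∃ t, t < L ∧ sv (w (i (t + 1))) (X (i (t + 1))) < sv (w (i (t + 1))) (T t))
    (hd : ∀ s, s < L → ∀ t, t < L → s ≠ t → Disjoint (T s) (T t))
    (hd' : ∀ s, s < L → ∀ k, (∀ t, t < L → i t ≠ k) → Disjoint (T s) (X k))
    (hl : ∀ t, t < L → (T t).card = 2 → ∀ g ∈ T t, ∀ k, w k g ≤ sv (w k) (X k)) : False := by
  classical
  have hinj' : ∀ s, s < L → ∀ t, t < L → i (s + 1) = i (t + 1) → s = t := by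
    intro s hs t ht h
    by_cases e1 : s + 1 = L
    · by_cases e2 : t + 1 = L
      · omega
      · rw [e1, hL] at h
        have := hinj 0 hL0 (t + 1) (by omega) h
        omega
    · by_cases e2 : t + 1 = L
      · rw [e2, hL] at h
        have := hinj (s + 1) (by omega) 0 hL0 h
        omega
      · have := hinj (s + 1) (by omega) (t + 1) (by omega) h
        omega
  set Y : ι → Finset M := fun k => if h : ∃ t, t < L ∧ i (t + 1) = k then T h.choose else X k
    with hYdef
  have hY1 : ∀ t, t < L → Y (i (t + 1)) = T t := by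
    intro t ht
    have hex : ∃ s, s < L ∧ i (s + 1) = i (t + 1) := ⟨t, ht, rfl⟩
    rw [hYdef]
    dsimp only
    rw [dif_pos hex]
    have h1 := hex.choose_spec
    rw [hinj' _ h1.1 t ht h1.2]
  have hY2 : ∀ k, (¬ ∃ t, t < L ∧ i (t + 1) = k) → Y k = X k := by
    intro k hk
    rw [hYdef]
    dsimp only
    rw [dif_neg hk]
  have hout : ∀ k, (¬ ∃ t, t < L ∧ i (t + 1) = k) → ∀ t, t < L → i t ≠ k := by
    intro k hk t ht e
    apply hk
    by_cases h0 : t = 0
    · refine ⟨L - 1, by omega, ?_⟩
      have : L - 1 + 1 = L := by omega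
      rw [this, hL, ← e, h0]
    · refine ⟨t - 1, by omega, ?_⟩
      have : t - 1 + 1 = t := by omega
      rw [this, e]
  have hge : ∀ k, sv (w k) (X k) ≤ sv (w k) (Y k) := by
    intro k
    by_cases hk : ∃ t, t < L ∧ i (t + 1) = k
    · obtain ⟨t, ht, rfl⟩ := hk
      rw [hY1 t ht]
      exact hv t ht
    · rw [hY2 k hk]
  have hSt : St w Y := by
    refine ⟨?_, ?_, ?_, ?_⟩
    · intro k l hkl
      by_cases hk : ∃ t, t < L ∧ i (t + 1) = k
      · obtain ⟨t, ht, rfl⟩ := hk
        rw [hY1 t ht]
        by_cases hl' : ∃ t, t < L ∧ i (t + 1) = l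
        · obtain ⟨s, hs', rfl⟩ := hl'
          rw [hY1 s hs']
          exact hd t ht s hs' (by rintro rfl; exact hkl rfl)
        · rw [hY2 l hl']
          exact hd' t ht l (hout l hl')
      · rw [hY2 k hk]
        by_cases hl' : ∃ t, t < L ∧ i (t + 1) = l
        · obtain ⟨s, hs', rfl⟩ := hl'
          rw [hY1 s hs']
          exact (hd' s hs' k (hout k hk)).symm
        · rw [hY2 l hl']
          exact hB.st.disj k l hkl
    · intro k
      by_cases hk : ∃ t, t < L ∧ i (t + 1) = k
      · obtain ⟨t, ht, rfl⟩ := hk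
        rw [hY1 t ht]; exact hc t ht
      · rw [hY2 k hk]; exact hB.st.card_le k
    · intro k
      by_cases hk : ∃ t, t < L ∧ i (t + 1) = k
      · obtain ⟨t, ht, rfl⟩ := hk
        rw [hY1 t ht]; exact hn t ht
      · rw [hY2 k hk]; exact hB.st.ne k
    · intro k l hl2 g hg
      refine le_trans ?_ (hge k)
      by_cases hl' : ∃ t, t < L ∧ i (t + 1) = l
      · obtain ⟨s, hs', rfl⟩ := hl'
        rw [hY1 s hs'] at hg hl2
        exact hl s hs' hl2 g hg k
      · rw [hY2 l hl'] at hg hl2
        exact hB.st.efx k l hl2 g hg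
  obtain ⟨t, ht, hlt⟩ := hs
  have h1 := (hB.pareto hSt hge).1 (i (t + 1))
  rw [hY1 t ht] at h1
  linarith

/-- the champion cycle: two non-envied agents of it have envied champions with the same item -/
theorem Best.cycle (hw : ∀ i g, 0 ≤ w i g) (hB : Best w a X) (L : ℕ) (hL0 : 0 < L) (i : ℕ → ι)
    (x ζ : ℕ → M)
    (hinj : ∀ s, s < L → ∀ t, t < L → i s = i t → s = t) (hL : i L = i 0) (hx : x L = x 0)
    (h1 : ∀ t, t < L → ¬ Src w X (i t) →
      sv (w (i (t + 1))) (X (i (t + 1))) < sv (w (i (t + 1))) (X (i t)))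
    (h2 : ∀ t, t < L → Src w X (i t) → x t ∈ X (i t) ∧ Fre X (ζ t) ∧
      sv (w (i (t + 1))) (X (i (t + 1))) < w (i (t + 1)) (x t) + w (i (t + 1)) (ζ t))
    (h3 : ∀ s, s < L → ∀ t, t < L → Src w X (i s) → ¬ Src w X (i (s + 1)) → Src w X (i t) →
      ¬ Src w X (i (t + 1)) → ζ s = ζ t → s = t) : False := by
  classical
  have hinj' : ∀ s, s < L → ∀ t, t < L → i (s + 1) = i (t + 1) → s = t := by
    intro s hs t ht h
    by_cases e1 : s + 1 = L
    · by_cases e2 : t + 1 = L
      · omega
      · rw [e1, hL] at h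
        have := hinj 0 hL0 (t + 1) (by omega) h
        omega
    · by_cases e2 : t + 1 = L
      · rw [e2, hL] at h
        have := hinj (s + 1) (by omega) 0 hL0 h
        omega
      · have := hinj (s + 1) (by omega) (t + 1) (by omega) h
        omega
  have hx' : ∀ s, s < L → ∀ t, t < L → i s = i (t + 1) → x s = x (t + 1) := by
    intro s hs t ht h
    by_cases e2 : t + 1 = L
    · rw [e2, hL] at h
      have := hinj s hs 0 hL0 h
      rw [e2, hx, this]
    · rw [hinj s hs (t + 1) (by omega) h]
  -- membership for the successor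
  have hmem : ∀ t, t < L → Src w X (i (t + 1)) → x (t + 1) ∈ X (i (t + 1)) := by
    intro t ht hs
    by_cases e2 : t + 1 = L
    · rw [e2, hx, hL]
      rw [e2, hL] at hs
      exact (h2 0 hL0 hs).1
    · exact (h2 (t + 1) (by omega) hs).1
  have hfre : ∀ t, t < L → Src w X (i (t + 1)) → ∃ z, Fre X z := by
    intro t ht hs
    by_cases e2 : t + 1 = L
    · rw [e2, hL] at hs
      exact ⟨_, (h2 0 hL0 hs).2.1⟩
    · exact ⟨_, (h2 (t + 1) (by omega) hs).2.1⟩
  have hc2 : ∀ t, t < L → Src w X (i t) → (X (i t)).card = 2 := fun t ht hs =>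
    hB.src2 hw hs (h2 t ht hs).2.1
  have hc2' : ∀ t, t < L → Src w X (i (t + 1)) → (X (i (t + 1))).card = 2 := fun t ht hs => by
    obtain ⟨z, hz⟩ := hfre t ht hs
    exact hB.src2 hw hs hz
  set T : ℕ → Finset M := fun t => if Src w X (i t) then
      (if Src w X (i (t + 1)) then insert (x t) ((X (i (t + 1))).erase (x (t + 1)))
        else {x t, ζ t}) else X (i t) with hT
  have T1 : ∀ t, Src w X (i t) → Src w X (i (t + 1)) →
      T t = insert (x t) ((X (i (t + 1))).erase (x (t + 1))) := by
    intro t ha hb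
    rw [hT]; dsimp only; rw [if_pos ha, if_pos hb]
  have T2 : ∀ t, Src w X (i t) → ¬ Src w X (i (t + 1)) → T t = {x t, ζ t} := by
    intro t ha hb
    rw [hT]; dsimp only; rw [if_pos ha, if_neg hb]
  have T3 : ∀ t, ¬ Src w X (i t) → T t = X (i t) := by
    intro t ha
    rw [hT]; dsimp only; rw [if_neg ha]
  -- values
  have hval : ∀ t, t < L → sv (w (i (t + 1))) (X (i (t + 1))) < sv (w (i (t + 1))) (T t) := by
    intro t ht
    by_cases ha : Src w X (i t)
    · obtain ⟨m1, m2, m3⟩ := h2 t ht ha
      by_cases hb : Src w X (i (t + 1))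
      · rw [T1 t ha hb]
        obtain ⟨y, hy, hne, hX, hE⟩ := exists_other (hc2' t ht hb) (hmem t ht hb)
        rw [hE]
        have hown := hB.own hw (hc2' t ht hb) hy m2
        have e1 := sv_two (w := w (i (t + 1))) (hc2' t ht hb) (hmem t ht hb) hy hne
        by_cases e : x t = y
        · -- then the two agents coincide
          exfalso
          have e2 : i t = i (t + 1) := by
            by_contra hne2
            exact Finset.disjoint_left.mp (hB.st.disj _ _ hne2) m1 (e ▸ hy)
          have e3 := hx' t ht t ht e2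
          exact hne (e3 ▸ e)
        · have e4 : sv (w (i (t + 1))) (insert (x t) {y}) =
              w (i (t + 1)) (x t) + w (i (t + 1)) y := sv_pair e
          rw [e4]
          linarith
      · rw [T2 t ha hb]
        have : x t ≠ ζ t := by
          intro e
          exact m2 _ (e ▸ m1)
        rw [sv_pair this]
        exact m3
    · rw [T3 t ha]
      exact h1 t ht ha
  refine hB.no_cycle L hL0 i T hinj hL ?_ ?_ (fun t ht => (hval t ht).le) ⟨0, hL0, hval 0 hL0⟩
    ?_ ?_ ?_
  · -- cards
    intro t ht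
    by_cases ha : Src w X (i t)
    · by_cases hb : Src w X (i (t + 1))
      · rw [T1 t ha hb]
        refine (Finset.card_insert_le _ _).trans ?_
        rw [Finset.card_erase_of_mem (hmem t ht hb), hc2' t ht hb]
      · rw [T2 t ha hb]
        exact Finset.card_le_two
    · rw [T3 t ha]
      exact hB.st.card_le _
  · intro t ht
    by_cases ha : Src w X (i t)
    · by_cases hb : Src w X (i (t + 1))
      · rw [T1 t ha hb]; exact ⟨_, Finset.mem_insert_self _ _⟩
      · rw [T2 t ha hb]; exact ⟨_, Finset.mem_insert_self _ _⟩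
    · rw [T3 t ha]
      exact hB.st.ne _
  · -- pairwise disjoint
    -- description of members
    have key : ∀ t, t < L → ∀ g ∈ T t,
        (g ∈ X (i t) ∧ (Src w X (i t) → g = x t)) ∨
        (Src w X (i t) ∧ Src w X (i (t + 1)) ∧ g ∈ X (i (t + 1)) ∧ g ≠ x (t + 1)) ∨
        (Src w X (i t) ∧ ¬ Src w X (i (t + 1)) ∧ g = ζ t ∧ Fre X g) := by
      intro t ht g hg
      by_cases ha : Src w X (i t)
      · obtain ⟨m1, m2, m3⟩ := h2 t ht ha
        by_cases hb : Src w X (i (t + 1))
        · rw [T1 t ha hb, Finset.mem_insert, Finset.mem_erase] at hg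
          rcases hg with rfl | ⟨hg1, hg2⟩
          · exact Or.inl ⟨m1, fun _ => rfl⟩
          · exact Or.inr (Or.inl ⟨ha, hb, hg2, hg1⟩)
        · rw [T2 t ha hb, Finset.mem_insert, Finset.mem_singleton] at hg
          rcases hg with rfl | rfl
          · exact Or.inl ⟨m1, fun _ => rfl⟩
          · exact Or.inr (Or.inr ⟨ha, hb, rfl, m2⟩)
      · rw [T3 t ha] at hg
        exact Or.inl ⟨hg, fun h => absurd h ha⟩
    have same : ∀ k l g, g ∈ X k → g ∈ X l → k = l := by
      intro k l g hk hl
      by_contra hne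
      exact Finset.disjoint_left.mp (hB.st.disj k l hne) hk hl
    intro s hs t ht hst
    rw [Finset.disjoint_left]
    intro g hgs hgt
    rcases key s hs g hgs with ⟨a1, a2⟩ | ⟨a1, a2, a3, a4⟩ | ⟨a1, a2, a3, a4⟩
    · rcases key t ht g hgt with ⟨b1, b2⟩ | ⟨b1, b2, b3, b4⟩ | ⟨b1, b2, b3, b4⟩
      · exact hst (hinj s hs t ht (same _ _ g a1 b1))
      · have e := same _ _ g a1 b3
        have : Src w X (i s) := by rw [e]; exact b2
        exact b4 ((a2 this).trans (hx' s hs t ht e))
      · exact b4 _ a1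
    · rcases key t ht g hgt with ⟨b1, b2⟩ | ⟨b1, b2, b3, b4⟩ | ⟨b1, b2, b3, b4⟩
      · have e := same _ _ g b1 a3
        have : Src w X (i t) := by rw [e]; exact a2
        exact a4 ((b2 this).trans (hx' t ht s hs e))
      · exact hst (hinj' s hs t ht (same _ _ g a3 b3))
      · exact b4 _ a3
    · rcases key t ht g hgt with ⟨b1, b2⟩ | ⟨b1, b2, b3, b4⟩ | ⟨b1, b2, b3, b4⟩
      · exact a4 _ b1
      · exact a4 _ b3
      · exact hst (h3 s hs t ht a1 a2 b1 b2 (a3.symm.trans b3))
  · -- disjoint from the others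
    intro t ht k hk
    rw [Finset.disjoint_left]
    intro g hg hgk
    have same : ∀ l, g ∈ X l → l = k := by
      intro l hl
      by_contra hne
      exact Finset.disjoint_left.mp (hB.st.disj l k hne) hl hgk
    have hk' : i (t + 1) ≠ k := by
      by_cases e2 : t + 1 = L
      · rw [e2, hL]; exact hk 0 hL0
      · exact hk (t + 1) (by omega)
    by_cases ha : Src w X (i t)
    · obtain ⟨m1, m2, m3⟩ := h2 t ht ha
      by_cases hb : Src w X (i (t + 1))
      · rw [T1 t ha hb, Finset.mem_insert, Finset.mem_erase] at hg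
        rcases hg with rfl | ⟨hg1, hg2⟩
        · exact hk t ht (same _ m1)
        · exact hk' (same _ hg2)
      · rw [T2 t ha hb, Finset.mem_insert, Finset.mem_singleton] at hg
        rcases hg with rfl | rfl
        · exact hk t ht (same _ m1)
        · exact m2 _ hgk
    · rw [T3 t ha] at hg
      exact hk t ht (same _ hg)
  · intro t ht hc g hg k
    by_cases ha : Src w X (i t)
    · obtain ⟨m1, m2, m3⟩ := h2 t ht ha
      by_cases hb : Src w X (i (t + 1))
      · rw [T1 t ha hb, Finset.mem_insert, Finset.mem_erase] at hg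
        rcases hg with rfl | ⟨hg1, hg2⟩
        · exact hB.light hw (hB.st.lig m1 (hc2 t ht ha)) k
        · exact hB.light hw (hB.st.lig hg2 (hc2' t ht hb)) k
      · rw [T2 t ha hb, Finset.mem_insert, Finset.mem_singleton] at hg
        rcases hg with rfl | rfl
        · exact hB.light hw (hB.st.lig m1 (hc2 t ht ha)) k
        · exact hB.light hw m2.lig k
    · rw [T3 t ha] at hg hc
      exact hB.light hw (hB.st.lig hg hc) k

/-- somebody's envy -/
theorem exists_envier {k : ι} (h : ¬ Src w X k) : ∃ i, sv (w i) (X i) < sv (w i) (X k) := by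
  unfold Src at h
  push Not at h
  exact h

theorem not_src {i k : ι} (h : sv (w i) (X i) < sv (w i) (X k)) : ¬ Src w X k := fun hs => by
  have := hs i
  linarith

end Pool.Agent.H84Efx
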