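import Pool.Agent.Helper84_Efx.Cycles

/-! The structure of a stuck best state of four agents (helper84). -/

set_option linter.unusedSectionVars false

namespace Pool.Agent.H84Efx

open Finset

variable {ι M : Type*} [DecidableEq M] [Fintype ι] {w : ι → M → ℝ} {a : ι} {X : ι → Finset M}

/-- the stuck configuration -/
structure Stuck (w : ι → M → ℝ) (X : ι → Finset M) (j1 c1 j2 c2 : ι) (x1 x2 z : M) : Prop where
  n12 : j1 ≠ j2
  m12 : c1 ≠ c2
  cover : ∀ i, i = j1 ∨ i = c1 ∨ i = j2 ∨ i = c2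
  s1 : Src w X j1
  s2 : Src w X j2
  e1 : Env w X j1 c2
  e2 : Env w X j2 c1
  hx1 : x1 ∈ X j1
  hx2 : x2 ∈ X j2
  hz : Fre X z
  k1 : Wants w X c1 x1 z
  k2 : Wants w X c2 x2 z
  b1 : ∀ g ∈ X j1, w c1 g ≤ w c1 x1
  b2 : ∀ g ∈ X j2, w c2 g ≤ w c2 x2

theorem Stuck.swap {j1 c1 j2 c2 : ι} {x1 x2 z : M} (h : Stuck w X j1 c1 j2 c2 x1 x2 z) :
    Stuck w X j2 c2 j1 c1 x2 x1 z := by
  refine ⟨h.n12.symm, h.m12.symm, ?_, h.s2, h.s1, h.e2, h.e1, h.hx2, h.hx1, h.hz, h.k2, h.k1,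
    h.b2, h.b1⟩
  intro i
  rcases h.cover i with e | e | e | e
  · exact Or.inr (Or.inr (Or.inl e))
  · exact Or.inr (Or.inr (Or.inr e))
  · exact Or.inl e
  · exact Or.inr (Or.inl e)

theorem exists_periodic [Finite ι] [Nonempty ι] (f : ι → ι) :
    ∃ b, 0 < Function.minimalPeriod f b := by
  obtain ⟨b0⟩ := ‹Nonempty ι›
  obtain ⟨m, n, hne, h⟩ := Finite.exists_ne_map_eq_of_infinite (fun n : ℕ => f^[n] b0)
  wlog hlt : m < n generalizing m n
  · exact this n m hne.symm h.symm (by omega)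
  refine ⟨f^[m] b0, Function.IsPeriodicPt.minimalPeriod_pos (n := n - m) (by omega) ?_⟩
  unfold Function.IsPeriodicPt Function.IsFixedPt
  rw [← Function.iterate_add_apply]
  have : n - m + m = n := by omega
  rw [this]
  exact h.symm

theorem Best.exists_stuck (hw : ∀ i g, 0 ≤ w i g) [Fintype M] (hB : Best w a X)
    (hF : ¬ Full w) (h4 : Fintype.card ι = 4) :
    ∃ j1 c1 j2 c2 x1 x2 z, Stuck w X j1 c1 j2 c2 x1 x2 z := by
  classical
  have hne : Nonempty ι := ⟨a⟩
  have hsrc : ∀ j, Src w X j → ∃ c x z, c ≠ j ∧ x ∈ X j ∧ Fre X z ∧ Wants w X c x z := by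
    intro j hj
    by_contra hc
    apply hF
    refine hB.full_of_host hw hj ?_
    intro z hz c hcj x hx
    by_contra hlt
    push Not at hlt
    exact hc ⟨c, x, z, hcj, hx, hz, hlt⟩
  -- there is an unenvied agent, hence an item
  have hg0 : ∃ g0 : M, True := by
    obtain ⟨g, _⟩ := hB.st.ne a
    exact ⟨g, trivial⟩
  obtain ⟨g0, _⟩ := hg0
  have hall : ∀ i, ∃ c x z, (Src w X i → c ≠ i ∧ x ∈ X i ∧ Fre X z ∧ Wants w X c x z) ∧
      (¬ Src w X i → Env w X c i) := by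
    intro i
    by_cases hi : Src w X i
    · obtain ⟨c, x, z, h⟩ := hsrc i hi
      exact ⟨c, x, z, fun _ => h, fun h' => absurd hi h'⟩
    · obtain ⟨c, hc⟩ := exists_envier hi
      exact ⟨c, g0, g0, fun h => absurd h hi, fun _ => hc⟩
  choose f xx zz hf using hall
  obtain ⟨b, hb⟩ := exists_periodic f
  set L := Function.minimalPeriod f b with hLdef
  have hiL : f^[L] b = f^[0] b := by
    rw [hLdef, Function.iterate_minimalPeriod]; rfl
  have hsucc : ∀ t, f^[t + 1] b = f (f^[t] b) := fun t => Function.iterate_succ_apply' f t b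
  have hinj : ∀ s, s < L → ∀ t, t < L → f^[s] b = f^[t] b → s = t := by
    intro s hs t ht h
    exact (Function.iterate_eq_iterate_iff_of_lt_minimalPeriod hs ht).mp h
  obtain ⟨s, t, hs, ht, hst, g1, g2, g3, g4, g5⟩ : ∃ s t, s < L ∧ t < L ∧ s ≠ t ∧
      Src w X (f^[s] b) ∧ ¬ Src w X (f^[s + 1] b) ∧ Src w X (f^[t] b) ∧
      ¬ Src w X (f^[t + 1] b) ∧ zz (f^[s] b) = zz (f^[t] b) := by
    by_contra hcon
    refine hB.cycle hw L hb (fun t => f^[t] b) (fun t => xx (f^[t] b)) (fun t => zz (f^[t] b))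
      hinj hiL (by simp only [hiL]) ?_ ?_ ?_
    · intro t ht h
      simp only [hsucc]
      exact (hf _).2 h
    · intro t ht h
      simp only [hsucc]
      exact ((hf _).1 h).2
    · intro s hs t ht h1 h2 h3 h4 h5
      by_contra hst
      exact hcon ⟨s, t, hs, ht, hst, h1, h2, h3, h4, h5⟩
  set j1 := f^[s] b with hj1
  set j2 := f^[t] b with hj2
  rw [hsucc] at g2 g4
  have n12 : j1 ≠ j2 := fun e => hst (hinj s hs t ht e)
  have m12 : f j1 ≠ f j2 := by
    intro e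
    rw [hj1, hj2, ← hsucc, ← hsucc] at e
    apply hst
    by_cases e1 : s + 1 = L
    · by_cases e2 : t + 1 = L
      · omega
      · rw [e1, hiL] at e
        have := hinj 0 hb (t + 1) (by omega) e
        omega
    · by_cases e2 : t + 1 = L
      · rw [e2, hiL] at e
        have := hinj (s + 1) (by omega) 0 hb e
        omega
      · have := hinj (s + 1) (by omega) (t + 1) (by omega) e
        omega
  obtain ⟨p1, p2, p3, p4⟩ := (hf j1).1 g1
  obtain ⟨q1, q2, q3, q4⟩ := (hf j2).1 g3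
  rw [← g5] at q3 q4
  have d1 : j1 ≠ f j1 := Src.ne g1 g2
  have d2 : j1 ≠ f j2 := Src.ne g1 g4
  have d3 : j2 ≠ f j1 := Src.ne g3 g2
  have d4 : j2 ≠ f j2 := Src.ne g3 g4
  have cover : ∀ i, i = j1 ∨ i = f j1 ∨ i = j2 ∨ i = f j2 := by
    have hc : ({j1, f j1, j2, f j2} : Finset ι).card = 4 := by
      rw [Finset.card_insert_of_notMem (by simp [d1, d2, n12]),
        Finset.card_insert_of_notMem (by simp [d3.symm, m12]),
        Finset.card_pair d4]
    have hu : ({j1, f j1, j2, f j2} : Finset ι) = Finset.univ := by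
      rw [← Finset.card_eq_iff_eq_univ, hc, h4]
    intro i
    have : i ∈ ({j1, f j1, j2, f j2} : Finset ι) := by rw [hu]; exact Finset.mem_univ i
    simpa using this
  have key1 : Env w X j2 (f j1) := by
    have h := (hf (f j1)).2 g2
    rcases cover (f (f j1)) with e | e | e | e
    · rw [e] at h
      exact (hB.cyc2 hw g1 p2 p3 p4 h).elim
    · rw [e] at h
      exact absurd rfl h.ne
    · rwa [e] at h
    · rw [e] at h
      have h' := (hf (f j2)).2 g4
      rcases cover (f (f j2)) with e' | e' | e' | e'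
      · rw [e'] at h'
        exact (hB.cyc3b hw g1 p2 p3 p4 h h').elim
      · rw [e'] at h'
        exact (hB.cyc2n hw g0 h h').elim
      · rw [e'] at h'
        exact (hB.cyc2 hw g3 q2 q3 q4 h').elim
      · rw [e'] at h'
        exact absurd rfl h'.ne
  have key2 : Env w X j1 (f j2) := by
    have h := (hf (f j2)).2 g4
    rcases cover (f (f j2)) with e | e | e | e
    · rwa [e] at h
    · rw [e] at h
      exact (hB.cyc3b hw g3 q2 q3 q4 h key1).elim
    · rw [e] at h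
      exact (hB.cyc2 hw g3 q2 q3 q4 h).elim
    · rw [e] at h
      exact absurd rfl h.ne
  obtain ⟨x1, hx1, hb1⟩ := Finset.exists_max_image (X j1) (w (f j1)) (hB.st.ne j1)
  obtain ⟨x2, hx2, hb2⟩ := Finset.exists_max_image (X j2) (w (f j2)) (hB.st.ne j2)
  refine ⟨j1, f j1, j2, f j2, x1, x2, zz j1, n12, m12, cover, g1, g3, key2, key1, hx1, hx2, p3,
    ?_, ?_, hb1, hb2⟩
  · have := hb1 _ p2
    unfold Wants at p4 ⊢
    linarith
  · have := hb2 _ q2
    unfold Wants at q4 ⊢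
    linarith

section

variable {j1 c1 j2 c2 : ι} {x1 x2 z : M}

/-- the champion of the second does not want the items of the first -/
theorem Stuck.n1 (hw : ∀ i g, 0 ≤ w i g) (hB : Best w a X) (h : Stuck w X j1 c1 j2 c2 x1 x2 z)
    {g z' : M} (hg : g ∈ X j1) (hz' : Fre X z') : w c2 g + w c2 z' ≤ sv (w c2) (X c2) := by
  by_contra hc
  push Not at hc
  exact hB.cyc2 hw h.s1 hg hz' hc h.e1

theorem Stuck.n2 (hw : ∀ i g, 0 ≤ w i g) (hB : Best w a X) (h : Stuck w X j1 c1 j2 c2 x1 x2 z)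
    {g z' : M} (hg : g ∈ X j1) (hz' : Fre X z') : w j2 g + w j2 z' ≤ sv (w j2) (X j2) := by
  by_contra hc
  push Not at hc
  exact hB.cyc3a hw h.s1 h.s2 h.n12 hg hz' hc h.hx2 h.hz h.k2 h.e1

theorem Stuck.n3 (hw : ∀ i g, 0 ≤ w i g) (hB : Best w a X) (h : Stuck w X j1 c1 j2 c2 x1 x2 z)
    {g z' : M} (hg : g ∈ X j1) (hz' : Fre X z') (hne : z' ≠ z) :
    w c1 g + w c1 z' ≤ sv (w c1) (X c1) := by
  by_contra hc
  push Not at hc
  exact hB.cyc4 hw h.s1 h.s2 h.n12 h.m12 hg hz' hc h.hx2 h.hz h.k2 h.e2 h.e1 hne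

theorem Stuck.n4 (hw : ∀ i g, 0 ≤ w i g) (hB : Best w a X) (h : Stuck w X j1 c1 j2 c2 x1 x2 z) :
    sv (w c1) (X c2) ≤ sv (w c1) (X c1) := by
  by_contra hc
  push Not at hc
  exact hB.cyc3b hw h.s2 h.hx2 h.hz h.k2 hc h.e2

end

end Pool.Agent.H84Efx
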